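import Pool.Agent.MP_3b3b41_nt.Basic

/-! Closed star subalgebras: projections and averages. -/

open Finset Filter Topology
open scoped BigOperators ComplexConjugate InnerProductSpace

set_option linter.unusedSectionVars false
set_option linter.unusedSimpArgs false
set_option linter.unusedVariables false

noncomputable section

namespace Pool.Agent.MP_3b3b41_nt

variable {X Y Z : ℕ → Type}
variable [∀ n, Fintype (X n)] [∀ n, Nonempty (X n)] [∀ n, Fintype (Y n)] [∀ n, Nonempty (Y n)]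
  [∀ n, Fintype (Z n)] [∀ n, Nonempty (Z n)]

theorem mem_of_null {S : Set (L X)} (hS : IsClosed S) {f g : L X} (hf : f ∈ S)
    (h : ‖f - g‖ = 0) : g ∈ S := by
  refine hS.closure_subset (Metric.mem_closure_iff.2 fun ε hε => ⟨f, hf, ?_⟩)
  rw [dist_comm, dist_eq_norm, h]; exact hε

theorem inner_of_null_right (w : L X) {f : L X} (h : ‖f‖ = 0) : ⟪w, f⟫_ℂ = 0 := by
  have := norm_inner_le_norm (𝕜 := ℂ) w f
  rw [h, mul_zero] at this
  exact norm_le_zero_iff.1 this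

theorem inner_of_null_left {f : L X} (w : L X) (h : ‖f‖ = 0) : ⟪f, w⟫_ℂ = 0 := by
  rw [← inner_conj_symm, inner_of_null_right w h, map_zero]

theorem norm_eq_zero_of_inner {f : L X} (h : ⟪f, f⟫_ℂ = 0) : ‖f‖ = 0 := by
  rw [norm_eq_sqrt_re_inner (𝕜 := ℂ), h]; simp

theorem null_of_cst {f u : L X} {a : ℕ → ℂ} {c : ℂ} (ha : Tendsto a (U : Filter ℕ) (𝓝 c))
    (h : ∀ᶠ n in (U : Filter ℕ), ∀ x, f n x = u n x * a n) : ‖f - c • u‖ = 0 := by
  obtain ⟨C, h0, hC⟩ := u.bound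
  have ht : Tendsto (fun n => C ^ 2 * ‖a n - c‖ ^ 2) (U : Filter ℕ) (𝓝 0) := by
    simpa using (((ha.sub_const c).norm).pow 2).const_mul (C ^ 2)
  refine norm_eq_zero_of ht (h.mono fun n hn => expect_le univ_nonempty fun x _ => ?_)
  rw [L.sub_apply, L.smul_apply, hn x, mul_comm c, ← mul_sub, norm_mul, mul_pow]
  gcongr
  exact hC n x

theorem mem_of_cst {B : StarSubalgebra ℂ (L X)} (hB : IsClosed (B : Set (L X))) {f u : L X}
    {a : ℕ → ℂ} {c : ℂ} (ha : Tendsto a (U : Filter ℕ) (𝓝 c)) (hc : c ≠ 0)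
    (h : ∀ᶠ n in (U : Filter ℕ), ∀ x, f n x = u n x * a n) (hf : f ∈ B) : u ∈ B := by
  have h1 : c • u ∈ B := mem_of_null hB hf (null_of_cst ha h)
  simpa [smul_smul, hc] using B.smul_mem h1 c⁻¹

theorem fc_mem {B : StarSubalgebra ℂ (L X)} (hB : IsClosed (B : Set (L X))) {g h : L X}
    (hg : g ∈ B) (ρ : ℝ → ℝ) (hρ : Continuous ρ)
    (hh : ∀ n x, h n x = g n x * (ρ (‖g n x‖ ^ 2) : ℝ)) : h ∈ B := by
  obtain ⟨C, h0, hC⟩ := g.bound
  refine hB.closure_subset (Metric.mem_closure_iff.2 fun ε hε => ?_)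
  obtain ⟨q, hq⟩ := exists_polynomial_near_of_continuousOn 0 (C ^ 2) ρ hρ.continuousOn
    (ε / (2 * C)) (by positivity)
  refine ⟨g * ∑ i ∈ range (q.natDegree + 1), ((q.coeff i : ℝ) : ℂ) • (star g * g) ^ i,
    mul_mem hg (sum_mem fun i _ => B.smul_mem (pow_mem (mul_mem (star_mem hg) hg) _) _), ?_⟩
  rw [dist_eq_norm]
  refine lt_of_le_of_lt (b := ε / 2) (norm_le_of_bound (by positivity)
    (Eventually.of_forall fun n x => ?_)) (by linarith)
  have h1 := hq (‖g n x‖ ^ 2) ⟨by positivity, by gcongr; exact hC n x⟩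
  have h2 : (∑ i ∈ range (q.natDegree + 1), ((q.coeff i : ℝ) : ℂ) • (star g * g) ^ i) n x =
      ((q.eval (‖g n x‖ ^ 2) : ℝ) : ℂ) := by
    rw [Polynomial.eval_eq_sum_range, L.sum_apply, Complex.ofReal_sum]
    refine sum_congr rfl fun i _ => ?_
    rw [L.smul_apply]
    simp [Complex.conj_mul']
  rw [L.sub_apply, L.mul_apply, h2, hh, ← mul_sub, norm_mul, ← Complex.ofReal_sub,
    Complex.norm_real, Real.norm_eq_abs, abs_sub_comm]
  calc _ ≤ C * (ε / (2 * C)) := mul_le_mul (hC n x) h1.le (abs_nonneg _) h0.le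
    _ = ε / 2 := by field_simp

/-- Radial truncation. -/
def trunc (M : ℝ) (z : ℂ) : ℂ := z * ((M / max M √(‖z‖ ^ 2) : ℝ) : ℂ)

theorem norm_trunc_le {M : ℝ} (hM : 0 < M) (z : ℂ) : ‖trunc M z‖ ≤ M := by
  rw [trunc, Real.sqrt_sq (norm_nonneg _), norm_mul, Complex.norm_real,
    Real.norm_of_nonneg (by positivity), ← mul_div_assoc, div_le_iff₀ (by positivity), mul_comm]
  gcongr
  exact le_max_right _ _

theorem norm_sub_trunc_le {M : ℝ} (hM : 0 < M) {w : ℂ} (hw : ‖w‖ ≤ M) (z : ℂ) :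
    ‖w - trunc M z‖ ≤ ‖w - z‖ := by
  rw [trunc, Real.sqrt_sq (norm_nonneg _)]
  rcases le_total ‖z‖ M with h | h
  · rw [max_eq_left h, div_self hM.ne']; simp
  rw [max_eq_right h]
  have hz : 0 < ‖z‖ := hM.trans_le h
  set r := M / ‖z‖ with hr
  have hr0 : 0 ≤ r := by positivity
  have hr1 : r ≤ 1 := (div_le_one hz).2 h
  have hM' : M = r * ‖z‖ := by rw [hr]; field_simp
  refine le_of_sq (norm_nonneg _) ?_
  have h1 : w.re * z.re + w.im * z.im ≤ r * ‖z‖ ^ 2 := by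
    have := Complex.re_le_norm (w * conj z)
    rw [norm_mul, Complex.norm_conj] at this
    simp only [Complex.mul_re, Complex.conj_re, Complex.conj_im] at this
    nlinarith
  have h2 : ‖z‖ ^ 2 = z.re ^ 2 + z.im ^ 2 := by rw [Complex.sq_norm, Complex.normSq_apply]; ring
  rw [Complex.sq_norm, Complex.sq_norm, Complex.normSq_apply, Complex.normSq_apply]
  simp only [Complex.sub_re, Complex.sub_im, Complex.mul_re, Complex.mul_im, Complex.ofReal_re,
    Complex.ofReal_im]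
  rw [h2] at h1
  nlinarith [mul_nonneg (sub_nonneg.2 hr1) (sub_nonneg.2 h1),
    mul_nonneg (sq_nonneg (1 - r)) (add_nonneg (sq_nonneg z.re) (sq_nonneg z.im))]

/-- Orthogonal projections onto closed star subalgebras exist. -/
theorem exists_proj {B : StarSubalgebra ℂ (L X)} (hB : IsClosed (B : Set (L X))) (f : L X) :
    ∃ g ∈ B, ∀ b ∈ B, ⟪f - g, b⟫_ℂ = 0 := by
  obtain ⟨M, hM, hf⟩ := f.bound
  let ι : L X →ₗᵢ[ℂ] UniformSpace.Completion (L X) := UniformSpace.Completion.toComplₗᵢ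
  let K := ((Subalgebra.toSubmodule B.toSubalgebra).map ι.toLinearMap).topologicalClosure
  have hK : ∀ b ∈ B, ι b ∈ K := fun b hb =>
    Submodule.le_topologicalClosure _ ⟨b, hb, rfl⟩
  let p := K.starProjection (ι f)
  have hp : p ∈ closure (ι '' B) := K.starProjection_apply_mem (ι f)
  obtain ⟨s, hs, hst⟩ := mem_closure_iff_seq_limit.1 hp
  choose g hg hgs using hs
  let t : ℕ → L X := fun m =>
    L.mk (fun n x => trunc M (g m n x)) M fun n x => norm_trunc_le hM _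
  have htB : ∀ m, t m ∈ B := fun m =>
    fc_mem hB (hg m) (fun s => M / max M √s)
      (continuous_const.div (by fun_prop) fun s => (lt_max_of_lt_left hM).ne') fun n x => rfl
  have hle : ∀ m, ‖ι f - ι (t m)‖ ≤ ‖ι f - s m‖ := fun m => by
    rw [← hgs m, ← map_sub, ← map_sub, ι.norm_map, ι.norm_map]
    simpa using norm_le_of_le (f := f - t m) (g := f - g m) zero_le_one
      (Eventually.of_forall fun n x => by simpa [t] using norm_sub_trunc_le hM (hf n x) (g m n x))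
  have hpy : ∀ m, ‖p - ι (t m)‖ ^ 2 = ‖ι f - ι (t m)‖ ^ 2 - ‖ι f - p‖ ^ 2 := fun m => by
    have h0 : ⟪ι f - p, p - ι (t m)⟫_ℂ = 0 :=
      K.starProjection_inner_eq_zero _ _ (K.sub_mem (K.starProjection_apply_mem _) (hK _ (htB m)))
    have := norm_add_sq_eq_norm_sq_add_norm_sq_of_inner_eq_zero _ _ h0
    rw [sub_add_sub_cancel] at this
    nlinarith
  have htp : Tendsto (fun m => ι (t m)) atTop (𝓝 p) := by
    rw [tendsto_iff_norm_sub_tendsto_zero]
    have h1 : Tendsto (fun m => √(‖ι f - s m‖ ^ 2 - ‖ι f - p‖ ^ 2)) atTop (𝓝 0) := by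
      have := ((((hst.const_sub (ι f)).norm).pow 2).sub_const (‖ι f - p‖ ^ 2)).sqrt
      rwa [sub_self, Real.sqrt_zero] at this
    refine squeeze_zero (fun _ => norm_nonneg _) (fun m => Real.le_sqrt_of_sq_le ?_) h1
    rw [norm_sub_rev, hpy]
    gcongr
    exact hle m
  have htc : CauchySeq t := (ι.isometry.isUniformInducing.cauchy_map_iff).1
    (by simpa [CauchySeq, Filter.map_map, Function.comp_def] using htp.cauchySeq)
  obtain ⟨g, -, hgt⟩ := complete t htc hM.le fun m =>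
    Eventually.of_forall fun n x => norm_trunc_le hM _
  have hgp : ι g = p := tendsto_nhds_unique ((ι.continuous.tendsto g).comp hgt) htp
  refine ⟨g, hB.mem_of_tendsto hgt (Eventually.of_forall htB), fun b hb => ?_⟩
  rw [← ι.inner_map_map, map_sub, hgp]
  exact K.starProjection_inner_eq_zero _ _ (hK b hb)

theorem mem_of_orth {B : StarSubalgebra ℂ (L X)} (hB : IsClosed (B : Set (L X))) {f : L X}
    (h : ∀ w : L X, (∀ b ∈ B, ⟪w, b⟫_ℂ = 0) → ⟪w, f⟫_ℂ = 0) : f ∈ B := by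
  obtain ⟨g, hg, ho⟩ := exists_proj hB f
  refine mem_of_null hB hg ?_
  rw [norm_sub_rev]
  refine norm_eq_zero_of_inner ?_
  rw [inner_sub_right, h _ ho, ho g hg, sub_zero]

/-- Slice at a point of the second coordinate. -/
def sl (y : ∀ n, Y n) : L (P2 X Y) →⋆ₐ[ℂ] L X := comap fun n x => (x, y n)

@[simp] theorem sl_apply (y : ∀ n, Y n) (F : L (P2 X Y)) (n x) : sl y F n x = F n (x, y n) := rfl

theorem inner_avg_zero (w : L X) (F : L (P2 X Y)) (h : ∀ y, ⟪w, sl y F⟫_ℂ = 0) :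
    ⟪w, avg F⟫_ℂ = 0 := by
  obtain ⟨C, h0, hC⟩ := F.bound
  obtain ⟨D, h1, hD⟩ := w.bound
  have := all_zero (fun n (y : Y n) => ‖𝔼 x, conj (w n x) * F n (x, y)‖) (D * C)
    (fun _ _ => norm_nonneg _) (fun n y => norm_expect_le_of fun x => by
      rw [norm_mul, Complex.norm_conj]
      exact mul_le_mul (hD n x) (hC n _) (norm_nonneg _) h1.le) fun y => by
      simpa [h y] using (tendsto_inner w (sl y F)).norm
  refine tendsto_nhds_unique (tendsto_inner w (avg F)) ((tendsto_expect_zero this).congr fun n => ?_)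
  rw [expect_comm]
  simp [mul_expect]

theorem avg_mem {B : StarSubalgebra ℂ (L X)} (hB : IsClosed (B : Set (L X))) {F : L (P2 X Y)}
    (h : ∀ y, sl y F ∈ B) : avg F ∈ B :=
  mem_of_orth hB fun w hw => inner_avg_zero w F fun y => hw _ (h y)

/-- The closed star algebra generated by a set. -/
def csp (Γ : Set (L X)) : StarSubalgebra ℂ (L X) := (StarAlgebra.adjoin ℂ Γ).topologicalClosure

theorem csp_closed (Γ : Set (L X)) : IsClosed (csp Γ : Set (L X)) := isClosed_closure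

theorem subset_csp {Γ : Set (L X)} {f : L X} (h : f ∈ Γ) : f ∈ csp Γ :=
  subset_closure (StarAlgebra.subset_adjoin ℂ Γ h)

theorem csp_le {Γ : Set (L X)} {B : StarSubalgebra ℂ (L X)} (hB : IsClosed (B : Set (L X)))
    (h : ∀ f ∈ Γ, f ∈ B) : csp Γ ≤ B :=
  StarSubalgebra.topologicalClosure_minimal (StarAlgebra.adjoin_le h) hB

theorem csp_map {Γ : Set (L X)} {B : StarSubalgebra ℂ (L Y)} (hB : IsClosed (B : Set (L Y)))
    (φ : L X →⋆ₐ[ℂ] L Y) (hφ : Continuous φ) (h : ∀ f ∈ Γ, φ f ∈ B) {f : L X} (hf : f ∈ csp Γ) :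
    φ f ∈ B :=
  csp_le (B := B.comap φ) (hB.preimage hφ) h hf

theorem csp_ind {Γ : Set (L X)} (h1 : (1 : L X) ∈ Γ) (hm : ∀ f ∈ Γ, ∀ g ∈ Γ, f * g ∈ Γ)
    (hs : ∀ f ∈ Γ, star f ∈ Γ) (S : Submodule ℂ (L X)) (hS : IsClosed (S : Set (L X)))
    (h : ∀ f ∈ Γ, f ∈ S) {f : L X} (hf : f ∈ csp Γ) : f ∈ S := by
  refine closure_minimal (fun g hg => ?_) hS hf
  have hg' : g ∈ Subalgebra.toSubmodule (StarAlgebra.adjoin ℂ Γ).toSubalgebra := hg
  rw [StarAlgebra.adjoin_eq_span] at hg'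
  refine Submodule.span_le.2 (fun u hu => h u ?_) hg'
  induction hu using Submonoid.closure_induction with
  | mem x hx =>
    rcases hx with hx | hx
    · exact hx
    · simpa using hs _ hx
  | one => exact h1
  | mul x y _ _ hx hy => exact hm _ hx _ hy

theorem csp_orth {Γ : Set (L X)} (h1 : (1 : L X) ∈ Γ) (hm : ∀ f ∈ Γ, ∀ g ∈ Γ, f * g ∈ Γ)
    (hs : ∀ f ∈ Γ, star f ∈ Γ) {w : L X} (h : ∀ f ∈ Γ, ⟪w, f⟫_ℂ = 0) {f : L X}
    (hf : f ∈ csp Γ) : ⟪w, f⟫_ℂ = 0 :=
  csp_ind h1 hm hs (LinearMap.ker (innerSL ℂ w : L X →ₗ[ℂ] ℂ)) (innerSL ℂ w).isClosed_ker h hf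

end Pool.Agent.MP_3b3b41_nt
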