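import Mathlib

/-! Bounded sequences of functions on finite sets, with the ultralimit inner product. -/

open Finset Filter Topology
open scoped BigOperators ComplexConjugate InnerProductSpace

set_option linter.unusedSectionVars false
set_option linter.unusedSimpArgs false
set_option linter.unusedVariables false

noncomputable section

namespace Pool.Agent.MP_3b3b41_nt

/-- A fixed non-principal ultrafilter on the naturals. -/
def U : Ultrafilter ℕ := Filter.hyperfilter ℕ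

theorem U_le : (U : Filter ℕ) ≤ atTop := by
  rw [← Nat.cofinite_eq_atTop]; exact Filter.hyperfilter_le_cofinite

theorem tendsto_U {α : Type*} {f : ℕ → α} {l : Filter α} (h : Tendsto f atTop l) :
    Tendsto f (U : Filter ℕ) l := h.mono_left U_le

theorem diag (Good : ℕ → ℕ → Prop) (h : ∀ j, ∀ᶠ n in (U : Filter ℕ), Good j n) :
    ∃ j : ℕ → ℕ, Tendsto j (U : Filter ℕ) atTop ∧ ∀ᶠ n in (U : Filter ℕ), Good (j n) n := by
  classical
  refine ⟨fun n => Nat.findGreatest (fun j => Good j n) n, ?_, ?_⟩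
  · rw [tendsto_atTop]
    intro J
    filter_upwards [h J, U_le (eventually_ge_atTop J)] with n h1 h2
    exact Nat.le_findGreatest h2 h1
  · filter_upwards [h 0] with n h1
    exact Nat.findGreatest_spec (P := fun j => Good j n) (Nat.zero_le n) h1

theorem exists_lim {a : ℕ → ℂ} {C : ℝ} (h : ∀ n, ‖a n‖ ≤ C) :
    ∃ c, Tendsto a (U : Filter ℕ) (𝓝 c) := by
  have hc : IsCompact (Metric.closedBall (0 : ℂ) C) := isCompact_closedBall _ _
  obtain ⟨c, -, hc⟩ := hc.ultrafilter_le_nhds (U.map a) (by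
    rw [Ultrafilter.coe_map, le_principal_iff, Filter.mem_map]
    exact Eventually.of_forall fun n => by simpa using h n)
  exact ⟨c, hc⟩

theorem le_of_sq {a b : ℝ} (hb : 0 ≤ b) (h : a ^ 2 ≤ b ^ 2) : a ≤ b :=
  (abs_le_of_sq_le_sq' h hb).2

abbrev P2 (X Y : ℕ → Type) : ℕ → Type := fun n => X n × Y n
abbrev Pw (ι : Type) (X : ℕ → Type) : ℕ → Type := fun n => ι → X n

/-- Uniformly bounded families. -/
def bdd (X : ℕ → Type) : StarSubalgebra ℂ (∀ n, X n → ℂ) where
  carrier := {f | ∃ C : ℝ, ∀ n x, ‖f n x‖ ≤ C}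
  mul_mem' := by
    rintro f g ⟨C, hC⟩ ⟨D, hD⟩
    refine ⟨|C| * |D|, fun n x => ?_⟩
    simp only [Pi.mul_apply, norm_mul]
    exact mul_le_mul ((hC n x).trans (le_abs_self _)) ((hD n x).trans (le_abs_self _))
      (norm_nonneg _) (abs_nonneg _)
  add_mem' := by
    rintro f g ⟨C, hC⟩ ⟨D, hD⟩
    exact ⟨C + D, fun n x => (norm_add_le _ _).trans (add_le_add (hC n x) (hD n x))⟩
  algebraMap_mem' := fun c => ⟨‖c‖, fun n x => by simp⟩
  star_mem' := by
    rintro f ⟨C, hC⟩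
    exact ⟨C, fun n x => by simpa using hC n x⟩

/-- The algebra of uniformly bounded families of functions. -/
def L (X : ℕ → Type) : Type := bdd X

variable {X Y Z : ℕ → Type}

instance : CommRing (L X) := inferInstanceAs (CommRing (bdd X))
instance : Algebra ℂ (L X) := inferInstanceAs (Algebra ℂ (bdd X))
instance : StarRing (L X) := inferInstanceAs (StarRing (bdd X))
instance : StarModule ℂ (L X) := inferInstanceAs (StarModule ℂ (bdd X))

def L.val (f : L X) : ∀ n, X n → ℂ := Subtype.val f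

instance : CoeFun (L X) (fun _ => ∀ n, X n → ℂ) := ⟨L.val⟩

def L.mk (f : ∀ n, X n → ℂ) (C : ℝ) (h : ∀ n x, ‖f n x‖ ≤ C) : L X :=
  (⟨f, C, h⟩ : bdd X)

@[simp] theorem L.mk_apply (f : ∀ n, X n → ℂ) (C : ℝ) (h : ∀ n x, ‖f n x‖ ≤ C) (n x) :
    L.mk f C h n x = f n x := rfl

@[ext] theorem L.ext {f g : L X} (h : ∀ n x, f n x = g n x) : f = g :=
  Subtype.ext (funext fun n => funext (h n))

theorem L.bound (f : L X) : ∃ C : ℝ, 0 < C ∧ ∀ n x, ‖f n x‖ ≤ C := by
  obtain ⟨C, hC⟩ := (Subtype.property f : ∃ C : ℝ, ∀ n x, ‖f n x‖ ≤ C)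
  exact ⟨|C| + 1, by positivity, fun n x => (hC n x).trans (by linarith [le_abs_self C])⟩

@[simp] theorem L.add_apply (f g : L X) (n x) : (f + g) n x = f n x + g n x := rfl
@[simp] theorem L.sub_apply (f g : L X) (n x) : (f - g) n x = f n x - g n x := rfl
@[simp] theorem L.neg_apply (f : L X) (n x) : (-f) n x = -f n x := rfl
@[simp] theorem L.mul_apply (f g : L X) (n x) : (f * g) n x = f n x * g n x := rfl
@[simp] theorem L.smul_apply (c : ℂ) (f : L X) (n x) : (c • f) n x = c * f n x := rfl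
@[simp] theorem L.star_apply (f : L X) (n x) : (star f) n x = conj (f n x) := rfl
@[simp] theorem L.one_apply (n x) : (1 : L X) n x = 1 := rfl
@[simp] theorem L.zero_apply (n x) : (0 : L X) n x = 0 := rfl
@[simp] theorem L.pow_apply (f : L X) (k : ℕ) (n x) : (f ^ k) n x = f n x ^ k := rfl

/-- Evaluation as a ring homomorphism. -/
def L.ev (n : ℕ) (x : X n) : L X →+* ℂ where
  toFun f := f n x
  map_one' := rfl
  map_mul' _ _ := rfl
  map_zero' := rfl
  map_add' _ _ := rfl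

@[simp] theorem L.prod_apply {ι : Type*} (s : Finset ι) (f : ι → L X) (n x) :
    (∏ i ∈ s, f i) n x = ∏ i ∈ s, f i n x := map_prod (L.ev n x) f s

@[simp] theorem L.sum_apply {ι : Type*} (s : Finset ι) (f : ι → L X) (n x) :
    (∑ i ∈ s, f i) n x = ∑ i ∈ s, f i n x := map_sum (L.ev n x) f s

/-- Pull-back along a family of maps. -/
def comap (ψ : ∀ n, Y n → X n) : L X →⋆ₐ[ℂ] L Y where
  toFun f := (⟨fun n y => f n (ψ n y), by
    obtain ⟨C, -, hC⟩ := f.bound
    exact ⟨C, fun n y => hC n _⟩⟩ : bdd Y)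
  map_one' := rfl
  map_mul' _ _ := rfl
  map_zero' := rfl
  map_add' _ _ := rfl
  commutes' _ := rfl
  map_star' _ := rfl

@[simp] theorem comap_apply (ψ : ∀ n, Y n → X n) (f : L X) (n y) :
    comap ψ f n y = f n (ψ n y) := rfl

theorem norm_expect_le_of {ι : Type*} [Fintype ι] [Nonempty ι] {f : ι → ℂ} {C : ℝ}
    (h : ∀ i, ‖f i‖ ≤ C) : ‖𝔼 i, f i‖ ≤ C :=
  (RCLike.norm_expect_le (K := ℂ)).trans (expect_le univ_nonempty fun i _ => h i)

theorem conj_expect {ι : Type*} (s : Finset ι) (f : ι → ℂ) :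
    conj (𝔼 i ∈ s, f i) = 𝔼 i ∈ s, conj (f i) := by
  simp [Finset.expect_eq_sum_div_card, map_sum]

theorem expect_prod' {ι κ M : Type*} [Fintype ι] [Fintype κ] [AddCommMonoid M] [Module ℚ≥0 M]
    (f : ι × κ → M) : 𝔼 p, f p = 𝔼 i, 𝔼 j, f (i, j) := by
  rw [← univ_product_univ, expect_product]

variable [∀ n, Fintype (X n)] [∀ n, Nonempty (X n)] [∀ n, Fintype (Y n)] [∀ n, Nonempty (Y n)]
  [∀ n, Fintype (Z n)] [∀ n, Nonempty (Z n)]

theorem exists_E (f : L X) : ∃ c, Tendsto (fun n => 𝔼 x, f n x) (U : Filter ℕ) (𝓝 c) := by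
  obtain ⟨C, -, hC⟩ := f.bound
  exact exists_lim (C := C) fun n => norm_expect_le_of (hC n)

/-- The limiting mean. -/
def E (f : L X) : ℂ := (exists_E f).choose

theorem tendsto_E (f : L X) : Tendsto (fun n => 𝔼 x, f n x) (U : Filter ℕ) (𝓝 (E f)) :=
  (exists_E f).choose_spec

theorem E_eq {f : L X} {c : ℂ} (h : Tendsto (fun n => 𝔼 x, f n x) (U : Filter ℕ) (𝓝 c)) :
    E f = c := tendsto_nhds_unique (tendsto_E f) h

theorem E_congr {f : L X} {g : L Y}
    (h : ∀ᶠ n in (U : Filter ℕ), 𝔼 x, f n x = 𝔼 y, g n y) : E f = E g :=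
  E_eq ((tendsto_E g).congr' (h.mono fun _ h => h.symm))

theorem E_add (f g : L X) : E (f + g) = E f + E g :=
  E_eq (by simpa [expect_add_distrib] using (tendsto_E f).add (tendsto_E g))

theorem E_smul (c : ℂ) (f : L X) : E (c • f) = c * E f :=
  E_eq (by simpa [← mul_expect] using (tendsto_E f).const_mul c)

theorem E_star (f : L X) : E (star f) = conj (E f) :=
  E_eq (by
    simpa [← conj_expect, Function.comp_def] using
      (Complex.continuous_conj.tendsto _).comp (tendsto_E f))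

theorem E_one : E (1 : L X) = 1 := E_eq (by simp [Fintype.expect_const])

theorem tendsto_sq' (f : L X) :
    Tendsto (fun n => 𝔼 x, ‖f n x‖ ^ 2) (U : Filter ℕ) (𝓝 (E (star f * f)).re) := by
  refine ((Complex.continuous_re.tendsto _).comp (tendsto_E (star f * f))).congr fun n => ?_
  simp only [Function.comp_apply, Complex.re_expect, L.mul_apply, L.star_apply]
  refine expect_congr rfl fun x _ => ?_
  rw [Complex.conj_mul', ← Complex.ofReal_pow, Complex.ofReal_re]

/-- The ultralimit inner product. -/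
@[instance_reducible] def core (X : ℕ → Type) [∀ n, Fintype (X n)] [∀ n, Nonempty (X n)] :
    PreInnerProductSpace.Core ℂ (L X) where
  inner f g := E (star f * g)
  conj_inner_symm f g := by rw [← E_star, star_mul, star_star]
  re_inner_nonneg f := ge_of_tendsto' (tendsto_sq' f) fun n =>
    expect_nonneg fun x _ => by positivity
  add_left f g h := by rw [star_add, add_mul, E_add]
  smul_left f g c := by rw [star_smul, smul_mul_assoc, E_smul]; rfl

instance : SeminormedAddCommGroup (L X) :=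
  @InnerProductSpace.Core.toSeminormedAddCommGroup ℂ (L X) _ _ _ (core X)

instance : InnerProductSpace ℂ (L X) := InnerProductSpace.ofCore (core X)

theorem inner_def (f g : L X) : ⟪f, g⟫_ℂ = E (star f * g) := rfl

theorem tendsto_inner (f g : L X) :
    Tendsto (fun n => 𝔼 x, conj (f n x) * g n x) (U : Filter ℕ) (𝓝 ⟪f, g⟫_ℂ) :=
  tendsto_E (star f * g)

theorem tendsto_sq (f : L X) :
    Tendsto (fun n => 𝔼 x, ‖f n x‖ ^ 2) (U : Filter ℕ) (𝓝 (‖f‖ ^ 2)) := by
  rw [← inner_self_eq_norm_sq (𝕜 := ℂ)]; exact tendsto_sq' f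

theorem E_eq_inner (f : L X) : E f = ⟪(1 : L X), f⟫_ℂ := by rw [inner_def, star_one, one_mul]

theorem norm_one' : ‖(1 : L X)‖ = 1 := by
  have h := tendsto_sq (1 : L X)
  simp only [L.one_apply, norm_one, one_pow, Fintype.expect_const] at h
  have := tendsto_nhds_unique h tendsto_const_nhds
  nlinarith [norm_nonneg (1 : L X)]

theorem sq_le_of {f : L X} {a : ℕ → ℝ} {c : ℝ} (ha : Tendsto a (U : Filter ℕ) (𝓝 c))
    (h : ∀ᶠ n in (U : Filter ℕ), 𝔼 x, ‖f n x‖ ^ 2 ≤ a n) : ‖f‖ ^ 2 ≤ c :=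
  le_of_tendsto_of_tendsto (tendsto_sq f) ha h

theorem norm_le_of_le {f g : L X} {C : ℝ} (hC : 0 ≤ C)
    (h : ∀ᶠ n in (U : Filter ℕ), ∀ x, ‖f n x‖ ≤ C * ‖g n x‖) : ‖f‖ ≤ C * ‖g‖ := by
  refine le_of_sq (by positivity) ?_
  rw [mul_pow]
  refine sq_le_of ((tendsto_sq g).const_mul _) (h.mono fun n hn => ?_)
  rw [mul_expect]
  exact expect_le_expect fun x _ => by rw [← mul_pow]; gcongr; exact hn x

theorem norm_le_of_bound {f : L X} {C : ℝ} (hC : 0 ≤ C)
    (h : ∀ᶠ n in (U : Filter ℕ), ∀ x, ‖f n x‖ ≤ C) : ‖f‖ ≤ C := by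
  have := norm_le_of_le (f := f) (g := 1) hC (by simpa using h)
  rwa [norm_one', mul_one] at this

theorem norm_eq_zero_of {f : L X} {a : ℕ → ℝ} (ha : Tendsto a (U : Filter ℕ) (𝓝 0))
    (h : ∀ᶠ n in (U : Filter ℕ), 𝔼 x, ‖f n x‖ ^ 2 ≤ a n) : ‖f‖ = 0 := by
  have := sq_le_of ha h
  nlinarith [norm_nonneg f]

theorem norm_sub_eq_zero_of_eq {f g : L X} (h : ∀ᶠ n in (U : Filter ℕ), ∀ x, f n x = g n x) :
    ‖f - g‖ = 0 :=
  le_antisymm (norm_le_of_bound le_rfl (h.mono fun n hn x => by simp [hn x])) (norm_nonneg _)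

theorem norm_mul_le' (f g : L X) {C : ℝ} (hC : 0 ≤ C) (h : ∀ n x, ‖f n x‖ ≤ C) :
    ‖f * g‖ ≤ C * ‖g‖ :=
  norm_le_of_le hC (Eventually.of_forall fun n x => by
    rw [L.mul_apply, norm_mul]; gcongr; exact h n x)

theorem norm_star' (f : L X) : ‖star f‖ = ‖f‖ := by
  apply le_antisymm
  · simpa using norm_le_of_le (f := star f) (g := f) zero_le_one (by simp)
  · simpa using norm_le_of_le (f := f) (g := star f) zero_le_one (by simp)

theorem continuous_mul_left' (f : L X) : Continuous fun g => f * g := by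
  obtain ⟨C, h0, hC⟩ := f.bound
  exact AddMonoidHomClass.continuous_of_bound (AddMonoidHom.mulLeft f) C
    fun g => norm_mul_le' f g h0.le hC

instance : ContinuousStar (L X) :=
  ⟨AddMonoidHomClass.continuous_of_bound (starAddEquiv : L X ≃+ L X) 1
    fun f => by simp [norm_star']⟩

instance : SeparatelyContinuousMul (L X) where
  continuous_const_mul := continuous_mul_left' _
  continuous_mul_const {f} := by simpa only [mul_comm] using continuous_mul_left' f

instance : IsSemitopologicalSemiring (L X) where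

/-- Eventually measure preserving families of maps. -/
def MP (ψ : ∀ n, Y n → X n) : Prop :=
  ∀ᶠ n in (U : Filter ℕ), ∀ f : X n → ℂ, 𝔼 y, f (ψ n y) = 𝔼 x, f x

theorem MP.E {ψ : ∀ n, Y n → X n} (h : MP ψ) (f : L X) : E (comap ψ f) = E f :=
  E_congr (h.mono fun n hn => hn (f n))

theorem MP.inner {ψ : ∀ n, Y n → X n} (h : MP ψ) (f g : L X) :
    ⟪comap ψ f, comap ψ g⟫_ℂ = ⟪f, g⟫_ℂ := by
  rw [inner_def, inner_def, ← map_star, ← map_mul, h.E]

theorem MP.norm {ψ : ∀ n, Y n → X n} (h : MP ψ) (f : L X) : ‖comap ψ f‖ = ‖f‖ := by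
  rw [norm_eq_sqrt_re_inner (𝕜 := ℂ), norm_eq_sqrt_re_inner (𝕜 := ℂ), h.inner]

theorem MP.continuous {ψ : ∀ n, Y n → X n} (h : MP ψ) : Continuous (comap ψ) :=
  AddMonoidHomClass.continuous_of_bound (comap ψ) 1 fun f => by simp [h.norm]

theorem MP_fst : MP (fun n (p : P2 X Y n) => p.1) :=
  Eventually.of_forall fun n f => by simp [expect_prod', Fintype.expect_const]

theorem MP_snd : MP (fun n (p : P2 X Y n) => p.2) :=
  Eventually.of_forall fun n f => by simp [expect_prod', Fintype.expect_const]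

theorem MP_equiv (e : ∀ n, Y n ≃ X n) : MP (fun n y => e n y) :=
  Eventually.of_forall fun n f => Fintype.expect_equiv (e n) _ _ fun _ => rfl

/-- Average over the second coordinate. -/
def avg (F : L (P2 X Y)) : L X :=
  (⟨fun n x => 𝔼 y, F n (x, y), by
    obtain ⟨C, -, hC⟩ := F.bound
    exact ⟨C, fun n x => norm_expect_le_of fun y => hC n _⟩⟩ : bdd X)

omit [∀ n, Fintype (X n)] [∀ n, Nonempty (X n)] in
@[simp] theorem avg_apply (F : L (P2 X Y)) (n x) : avg F n x = 𝔼 y, F n (x, y) := rfl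

theorem E_avg (F : L (P2 X Y)) : E (avg F) = E F :=
  E_congr (Eventually.of_forall fun n => by simp [expect_prod'])

/-- A property that holds at all points outside a null set holds on average. -/
theorem ae_zero (F N : ∀ n, Y n → ℝ) (C : ℝ) (hF0 : ∀ n y, 0 ≤ F n y) (hF : ∀ n y, F n y ≤ C)
    (h0 : ∀ n y, 0 ≤ N n y) (hN : Tendsto (fun n => 𝔼 y, N n y) (U : Filter ℕ) (𝓝 0))
    (h : ∀ y : ∀ n, Y n, Tendsto (fun n => N n (y n)) (U : Filter ℕ) (𝓝 0) →
      Tendsto (fun n => F n (y n)) (U : Filter ℕ) (𝓝 0)) :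
    Tendsto (fun n => 𝔼 y, F n y) (U : Filter ℕ) (𝓝 0) := by
  set a : ℕ → ℝ := fun n => 𝔼 y, N n y with ha
  have ha0 : ∀ n, 0 ≤ a n := fun n => expect_nonneg fun y _ => h0 n y
  set δ : ℕ → ℝ := fun n => √(a n) + 1 / ((n : ℝ) + 1) with hδ
  have hδ0 : ∀ n, 0 < δ n := fun n => by positivity
  have hδt : Tendsto δ (U : Filter ℕ) (𝓝 0) := by
    simpa [hδ] using hN.sqrt.add (tendsto_U tendsto_one_div_add_atTop_nhds_zero_nat)
  have haδ : ∀ n, a n / δ n ≤ δ n := fun n => by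
    rw [div_le_iff₀ (hδ0 n)]
    have h1 : √(a n) ≤ δ n := le_add_of_nonneg_right (by positivity)
    calc a n = √(a n) * √(a n) := (Real.mul_self_sqrt (ha0 n)).symm
      _ ≤ _ := mul_le_mul h1 h1 (Real.sqrt_nonneg _) (hδ0 n).le
  have hy : ∀ n, ∃ y, 𝔼 y, (F n y - N n y / δ n) ≤ F n y - N n y / δ n := fun n => by
    obtain ⟨y, -, hy⟩ := exists_le_of_le_expect univ_nonempty
      (le_refl (𝔼 y, (F n y - N n y / δ n)))
    exact ⟨y, hy⟩
  choose y hy using hy
  have key : ∀ n, 𝔼 y, F n y + N n (y n) / δ n ≤ F n (y n) + δ n := fun n => by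
    have := hy n
    rw [expect_sub_distrib, ← expect_div] at this
    linarith [haδ n]
  have hE0 : ∀ n, 0 ≤ 𝔼 y, F n y := fun n => expect_nonneg fun y _ => hF0 n y
  have h1 : Tendsto (fun n => N n (y n)) (U : Filter ℕ) (𝓝 0) := by
    refine squeeze_zero (fun n => h0 n _) (g := fun n => (C + δ n) * δ n) (fun n => ?_) ?_
    · rw [← div_le_iff₀ (hδ0 n)]
      linarith [key n, hE0 n, hF n (y n)]
    · simpa using (hδt.const_add C).mul hδt
  refine squeeze_zero hE0 (g := fun n => F n (y n) + δ n) (fun n => ?_) (by simpa using (h y h1).add hδt)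
  have : 0 ≤ N n (y n) / δ n := div_nonneg (h0 _ _) (hδ0 n).le
  linarith [key n]

theorem all_zero (F : ∀ n, Y n → ℝ) (C : ℝ) (hF0 : ∀ n y, 0 ≤ F n y) (hF : ∀ n y, F n y ≤ C)
    (h : ∀ y : ∀ n, Y n, Tendsto (fun n => F n (y n)) (U : Filter ℕ) (𝓝 0)) :
    Tendsto (fun n => 𝔼 y, F n y) (U : Filter ℕ) (𝓝 0) :=
  ae_zero F (fun _ _ => 0) C hF0 hF (fun _ _ => le_rfl) (by simp) fun y _ => h y

theorem tendsto_expect_zero {F : ∀ n, Y n → ℂ}
    (h : Tendsto (fun n => 𝔼 y, ‖F n y‖) (U : Filter ℕ) (𝓝 0)) :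
    Tendsto (fun n => 𝔼 y, F n y) (U : Filter ℕ) (𝓝 0) :=
  squeeze_zero_norm (fun _ => RCLike.norm_expect_le (K := ℂ)) h

/-- Uniformly bounded Cauchy sequences converge. -/
theorem complete (f : ℕ → L X) (hf : CauchySeq f) {C : ℝ} (hC0 : 0 ≤ C)
    (hC : ∀ m, ∀ᶠ n in (U : Filter ℕ), ∀ x, ‖f m n x‖ ≤ C) :
    ∃ g : L X, (∀ n x, ‖g n x‖ ≤ C) ∧ Tendsto f atTop (𝓝 g) := by
  classical
  obtain ⟨j, hj, hg⟩ := diag (fun j n => (∀ x, ‖f j n x‖ ≤ C) ∧ ∀ a ∈ range (j + 1),
      𝔼 x, ‖(f a - f j) n x‖ ^ 2 ≤ ‖f a - f j‖ ^ 2 + 1 / ((j : ℝ) + 1)) (fun j => by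
    refine (hC j).and ((eventually_all_finset _).2 fun a _ => ?_)
    exact (tendsto_sq (f a - f j)).eventually_le_const (lt_add_of_pos_right _ (by positivity)))
  refine ⟨L.mk (fun n x => if ∀ x, ‖f (j n) n x‖ ≤ C then f (j n) n x else 0) C fun n x => ?_,
    fun n x => ?_, ?_⟩
  · split_ifs with h
    · exact h x
    · simpa using hC0
  · simp only [L.mk_apply]
    split_ifs with h
    · exact h x
    · simpa using hC0
  · rw [Metric.tendsto_atTop]
    intro ε hε
    obtain ⟨M, hM⟩ := Metric.cauchySeq_iff.1 hf (ε / 2) (by positivity)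
    refine ⟨M, fun a ha => ?_⟩
    rw [dist_eq_norm]
    refine lt_of_le_of_lt (b := ε / 2) (le_of_sq (by positivity) ?_) (by linarith)
    have ht : Tendsto (fun n => (ε / 2) ^ 2 + 1 / ((j n : ℝ) + 1)) (U : Filter ℕ)
        (𝓝 ((ε / 2) ^ 2)) := by
      have := (tendsto_one_div_add_atTop_nhds_zero_nat (𝕜 := ℝ).comp hj).const_add ((ε / 2) ^ 2)
      rwa [add_zero] at this
    refine sq_le_of ht ?_
    filter_upwards [hg, hj.eventually_ge_atTop a] with n hn h2
    simp only [L.sub_apply, L.mk_apply, if_pos hn.1]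
    refine (hn.2 a (mem_range.2 (by omega))).trans ?_
    have := hM a ha (j n) (ha.trans h2)
    rw [dist_eq_norm] at this
    gcongr

end Pool.Agent.MP_3b3b41_nt
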