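import Pool.Agent.MP_3b3b41_nt.Basic

/-! Gowers averages on a finite abelian group. -/

open Finset Filter Topology
open scoped BigOperators ComplexConjugate InnerProductSpace

set_option linter.unusedSectionVars false
set_option linter.unusedSimpArgs false
set_option linter.unusedVariables false

noncomputable section

namespace Pool.Agent.MP_3b3b41_nt

section Cube

variable {V : Type*} [AddCommGroup V] {t : ℕ}

/-- A vertex of the cube with base point `x` and edges `h`. -/
def vtx (x : V) (h : Fin t → V) (ω : Fin t → Bool) : V := x + ∑ r, if ω r = true then h r else 0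

/-- Conjugation at the odd vertices. -/
def cj {R : Type*} [Star R] (ω : Fin t → Bool) (z : R) : R :=
  if Even (univ.filter (fun r => ω r = true)).card then z else star z

/-- The sign of a vertex. -/
def sg (ω : Fin t → Bool) : ℤ := if Even (univ.filter (fun r => ω r = true)).card then 1 else -1

theorem vtx_false (x : V) (h : Fin (t + 1) → V) (ω : Fin t → Bool) :
    vtx x h (Fin.cons false ω) = vtx x (Fin.tail h) ω := by
  simp [vtx, Fin.sum_univ_succ, Fin.tail]

theorem vtx_true (x : V) (h : Fin (t + 1) → V) (ω : Fin t → Bool) :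
    vtx x h (Fin.cons true ω) = vtx x (Fin.tail h) ω + h 0 := by
  simp only [vtx, Fin.sum_univ_succ, Fin.tail, Fin.cons_zero, Fin.cons_succ, if_true]
  abel

theorem vtx_add (x a : V) (h : Fin t → V) (ω : Fin t → Bool) :
    vtx (x + a) h ω = vtx x h ω + a := by
  simp only [vtx]; abel

theorem vtx_add' (x a : V) (h k : Fin t → V) (ω : Fin t → Bool) :
    vtx (x + a) (h + k) ω = vtx x h ω + vtx a k ω := by
  have : ∀ r, (if ω r = true then (h + k) r else 0) =
      (if ω r = true then h r else 0) + (if ω r = true then k r else 0) := fun r => by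
    split_ifs <;> simp
  simp only [vtx, this, sum_add_distrib]; abel

@[simp] theorem vtx_zero (x : V) (h : Fin t → V) : vtx x h (fun _ => false) = x := by simp [vtx]

theorem map_vtx {W F : Type*} [AddCommGroup W] [FunLike F V W] [AddMonoidHomClass F V W] (φ : F)
    (x : V) (h : Fin t → V) (ω : Fin t → Bool) :
    φ (vtx x h ω) = vtx (φ x) (fun r => φ (h r)) ω := by
  simp only [vtx, map_add, map_sum]
  congr 1
  refine sum_congr rfl fun r _ => ?_
  split_ifs <;> simp

theorem vtx_single (y : V) (j : Fin t) (ω : Fin t → Bool) :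
    vtx y (-Pi.single j y) ω = if ω j = true then 0 else y := by
  rw [vtx, sum_eq_single j]
  · split_ifs <;> simp
  · intro r _ hr
    simp [Pi.single_eq_of_ne hr]
  · simp

theorem card_false (ω : Fin t → Bool) :
    (univ.filter (fun r => (Fin.cons false ω : Fin (t + 1) → Bool) r = true)).card =
      (univ.filter (fun r => ω r = true)).card := by
  rw [Fin.card_filter_univ_succ']; simp

theorem card_true (ω : Fin t → Bool) :
    (univ.filter (fun r => (Fin.cons true ω : Fin (t + 1) → Bool) r = true)).card =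
      (univ.filter (fun r => ω r = true)).card + 1 := by
  rw [Fin.card_filter_univ_succ']; simp [add_comm]

theorem cj_false {R : Type*} [Star R] (ω : Fin t → Bool) (z : R) :
    cj (Fin.cons false ω : Fin (t + 1) → Bool) z = cj ω z := by
  rw [cj, card_false, cj]

theorem cj_true {R : Type*} [InvolutiveStar R] (ω : Fin t → Bool) (z : R) :
    cj (Fin.cons true ω : Fin (t + 1) → Bool) z = cj ω (star z) := by
  rw [cj, card_true, cj]
  by_cases h : Even (univ.filter (fun r => ω r = true)).card <;> simp [Nat.even_add_one, h]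

theorem sg_false (ω : Fin t → Bool) : sg (Fin.cons false ω : Fin (t + 1) → Bool) = sg ω := by
  rw [sg, card_false, sg]

theorem sg_true (ω : Fin t → Bool) : sg (Fin.cons true ω : Fin (t + 1) → Bool) = -sg ω := by
  rw [sg, card_true, sg]
  by_cases h : Even (univ.filter (fun r => ω r = true)).card <;> simp [Nat.even_add_one, h]

@[simp] theorem cj_zero {R : Type*} [Star R] (z : R) : cj (fun _ : Fin t => false) z = z := by
  simp [cj]

theorem cj_mul {R : Type*} [CommMonoid R] [StarMul R] (ω : Fin t → Bool) (a b : R) :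
    cj ω (a * b) = cj ω a * cj ω b := by
  unfold cj; split_ifs <;> simp

theorem norm_cj (ω : Fin t → Bool) (z : ℂ) : ‖cj ω z‖ = ‖z‖ := by
  unfold cj; split_ifs <;> simp

theorem prod_cons {M : Type*} [CommMonoid M] (F : (Fin (t + 1) → Bool) → M) :
    ∏ ω, F ω = (∏ ω : Fin t → Bool, F (Fin.cons false ω)) *
      ∏ ω : Fin t → Bool, F (Fin.cons true ω) := by
  rw [← (Fin.consEquiv fun _ => Bool).prod_comp, Fintype.prod_prod_type, Fintype.prod_bool,
    mul_comm]
  rfl

theorem sum_cons {M : Type*} [AddCommMonoid M] (F : (Fin (t + 1) → Bool) → M) :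
    ∑ ω, F ω = (∑ ω : Fin t → Bool, F (Fin.cons false ω)) +
      ∑ ω : Fin t → Bool, F (Fin.cons true ω) := by
  rw [← (Fin.consEquiv fun _ => Bool).sum_comp, Fintype.sum_prod_type, Fintype.sum_bool,
    add_comm]
  rfl

theorem exists_true {ω : Fin t → Bool} (h : ω ≠ fun _ => false) : ∃ j, ω j = true := by
  by_contra hc
  exact h (funext fun j => by simpa using fun h' => hc ⟨j, h'⟩)

variable {Q : Type*} [AddCommGroup Q]

/-- Alternating sum over a cube. -/
def alt (P : V → Q) (x : V) (h : Fin t → V) : Q := ∑ ω, sg ω • P (vtx x h ω)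

theorem alt_succ (P : V → Q) (x : V) (h : Fin (t + 1) → V) :
    alt P x h = alt (fun v => P v - P (v + h 0)) x (Fin.tail h) := by
  simp only [alt, sum_cons, vtx_false, vtx_true, sg_false, sg_true, smul_sub, sum_sub_distrib,
    neg_smul, sum_neg_distrib, sub_eq_add_neg, smul_add, smul_neg, sum_add_distrib]

theorem alt_succ' (P : V → Q) (x : V) (h : Fin (t + 1) → V) :
    alt P x h = alt P x (Fin.tail h) - alt P (x + h 0) (Fin.tail h) := by
  rw [alt_succ]
  simp only [alt, smul_sub, sum_sub_distrib, vtx_add]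

theorem alt_base {P : V → Q} (hP : ∀ (x : V) (h : Fin (t + 1) → V), alt P x h = 0) (x y : V)
    (h : Fin t → V) : alt P x h = alt P y h := by
  have := hP x (Fin.cons (y - x) h)
  rw [alt_succ'] at this
  simpa [sub_eq_zero] using this

theorem alt_smul : ∀ {t : ℕ} {P : V → Q}, (∀ (x : V) (h : Fin (t + 1) → V), alt P x h = 0) →
    ∀ (x : V) (h : Fin t → V) (c : Fin t → ℤ),
      alt P x (fun r => c r • h r) = (∏ r, c r) • alt P x h
  | 0, P, _, x, h, c => by simp [Subsingleton.elim (fun r => c r • h r) h]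
  | t + 1, P, hP, x, h, c => by
    have h1 : ∀ (a y : V) (k : Fin (t + 1) → V), alt (fun v => P v - P (v + a)) y k = 0 :=
      fun a y k => by simpa [alt_succ P] using hP y (Fin.cons a k)
    let φ : V →+ Q := AddMonoidHom.mk' (fun a => alt P x (Fin.cons a (Fin.tail h) : Fin (t + 1) → V))
      fun a b => by
        rw [alt_base hP x (x + a) (Fin.cons b (Fin.tail h))]
        simp only [alt_succ' P, Fin.tail_cons, Fin.cons_zero, add_assoc]
        abel
    have h2 : alt P x (Fin.cons (c 0 • h 0) (Fin.tail h) : Fin (t + 1) → V) = c 0 • alt P x h := by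
      have := map_zsmul φ (c 0) (h 0)
      simpa [φ] using this
    rw [alt_succ, Fin.prod_univ_succ, mul_comm, mul_smul, ← h2, alt_succ P x (Fin.cons _ _)]
    exact alt_smul (h1 _) x (Fin.tail h) (fun r => c r.succ)

end Cube

variable {G Z : Type*} [AddCommGroup G] [Fintype G] [AddCommGroup Z] [Fintype Z] {t : ℕ}

/-- Product over a cube. -/
def cube (f : G → ℂ) (x : G) (h : Fin t → G) : ℂ := ∏ ω, cj ω (f (vtx x h ω))

/-- The Gowers average. -/
def Nf (t : ℕ) (f : G → ℂ) : ℂ := 𝔼 z : G × (Fin t → G), cube f z.1 z.2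

/-- Multiplicative derivative. -/
def Df (a : G) (f : G → ℂ) (x : G) : ℂ := f x * conj (f (x + a))

theorem cube_succ (f : G → ℂ) (x : G) (h : Fin (t + 1) → G) :
    cube f x h = cube (Df (h 0) f) x (Fin.tail h) := by
  simp only [cube, prod_cons, vtx_false, vtx_true, cj_false, cj_true, Df, cj_mul,
    prod_mul_distrib]
  rfl

theorem expect_cons {M : Type*} [AddCommMonoid M] [Module ℚ≥0 M] (F : (Fin (t + 1) → G) → M) :
    𝔼 h, F h = 𝔼 a : G, 𝔼 h : Fin t → G, F (Fin.cons a h) := by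
  rw [← expect_prod' (fun p : G × (Fin t → G) => F (Fin.cons p.1 p.2))]
  exact (Fintype.expect_equiv (Fin.consEquiv fun _ => G) _ _ fun _ => rfl).symm

theorem expect_shift {M : Type*} [AddCommMonoid M] [Module ℚ≥0 M] (F : G → M) (a : G) :
    𝔼 x, F (x + a) = 𝔼 x, F x := Fintype.expect_equiv (Equiv.addRight a) _ _ fun _ => rfl

theorem expect_shift' {M : Type*} [AddCommMonoid M] [Module ℚ≥0 M] (F : G → M) (a : G) :
    𝔼 x, F (a + x) = 𝔼 x, F x := Fintype.expect_equiv (Equiv.addLeft a) _ _ fun _ => rfl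

theorem Nf_succ (f : G → ℂ) : Nf (t + 1) f = 𝔼 a, Nf t (Df a f) := by
  simp only [Nf, expect_prod', expect_cons, cube_succ, Fin.cons_zero, Fin.tail_cons]
  exact expect_comm _ _ _

theorem Nf_zero (f : G → ℂ) : Nf 0 f = 𝔼 x, f x := by
  simp [Nf, expect_prod', cube, vtx, cj]

theorem Nf_one (f : G → ℂ) : Nf 1 f = ((‖𝔼 x, f x‖ ^ 2 : ℝ) : ℂ) := by
  simp only [Nf_succ, Nf_zero, Df]
  rw [expect_comm]
  simp only [← mul_expect, ← conj_expect, expect_shift' f, ← expect_mul, Complex.mul_conj']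
  simp

theorem Nf_shift (f : G → ℂ) (a : G) : Nf t (fun x => f (x + a)) = Nf t f := by
  simp only [Nf, expect_prod', cube, ← vtx_add]
  exact expect_shift (fun x => 𝔼 h : Fin t → G, ∏ ω, cj ω (f (vtx x h ω))) a

/-- The real form of the Gowers average of order `t + 1`. -/
def Mf (t : ℕ) (f : G → ℂ) : ℝ := (Nf (t + 1) f).re

theorem Mf_succ (f : G → ℂ) : Mf (t + 1) f = 𝔼 a, Mf t (Df a f) := by
  rw [Mf, Nf_succ, Complex.re_expect]; rfl

theorem Mf_zero (f : G → ℂ) : Mf 0 f = ‖𝔼 x, f x‖ ^ 2 := by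
  rw [Mf, zero_add, Nf_one, Complex.ofReal_re]

theorem Mf_nonneg : ∀ (t : ℕ) (f : G → ℂ), 0 ≤ Mf t f
  | 0, f => by rw [Mf_zero]; positivity
  | t + 1, f => by rw [Mf_succ]; exact expect_nonneg fun a _ => Mf_nonneg t _

theorem Nf_eq_Mf : ∀ (t : ℕ) (f : G → ℂ), Nf (t + 1) f = (Mf t f : ℂ)
  | 0, f => by rw [Mf_zero, zero_add, Nf_one]
  | t + 1, f => by
    rw [Mf_succ, Nf_succ, Complex.ofReal_expect]
    exact expect_congr rfl fun a _ => Nf_eq_Mf t _

theorem Mf_shift (f : G → ℂ) (a : G) : Mf t (fun x => f (x + a)) = Mf t f := by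
  rw [Mf, Nf_shift, Mf]

theorem norm_cube_le {f : G → ℂ} {C : ℝ} (h : ∀ x, ‖f x‖ ≤ C) (x : G) (k : Fin t → G) :
    ‖cube f x k‖ ≤ C ^ 2 ^ t := by
  rw [cube, norm_prod]
  refine (prod_le_prod (g := fun _ => C) (fun _ _ => norm_nonneg _)
    fun ω _ => by rw [norm_cj]; exact h _).trans (by simp)

theorem Mf_le {f : G → ℂ} {C : ℝ} (h : ∀ x, ‖f x‖ ≤ C) : Mf t f ≤ C ^ 2 ^ (t + 1) :=
  (Complex.re_le_norm _).trans (norm_expect_le_of fun z => norm_cube_le h _ _)

theorem sq_expect_le {ι : Type*} [Fintype ι] [Nonempty ι] (a : ι → ℝ) :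
    (𝔼 i, a i) ^ 2 ≤ 𝔼 i, a i ^ 2 := by
  simpa using expect_mul_sq_le_sq_mul_sq univ a (fun _ => 1)

theorem pow_expect_le {ι : Type*} [Fintype ι] [Nonempty ι] (a : ι → ℝ) (ha : ∀ i, 0 ≤ a i) :
    ∀ m : ℕ, (𝔼 i, a i) ^ 2 ^ m ≤ 𝔼 i, a i ^ 2 ^ m
  | 0 => by simp
  | m + 1 => by
    have h0 : 0 ≤ 𝔼 i, a i := expect_nonneg fun i _ => ha i
    calc (𝔼 i, a i) ^ 2 ^ (m + 1) = ((𝔼 i, a i) ^ 2 ^ m) ^ 2 := by rw [← pow_mul, pow_succ]
      _ ≤ (𝔼 i, a i ^ 2 ^ m) ^ 2 := by gcongr; exact pow_expect_le a ha m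
      _ ≤ 𝔼 i, (a i ^ 2 ^ m) ^ 2 := sq_expect_le _
      _ = _ := expect_congr rfl fun i _ => by rw [← pow_mul, ← pow_succ]

theorem gvn_step (φ : Z →+ G) (σ : G → Z) (hσ : ∀ y, φ (σ y) = y) (w : G → ℂ) (b c : Z → ℂ)
    (hb : ∀ z, ‖b z‖ ≤ 1) (hi : ∀ z y, b (z + σ y) = b z) :
    ‖𝔼 z, w (φ z) * (b z * c z)‖ ≤ 𝔼 z, ‖𝔼 y, w (φ z + y) * c (z + σ y)‖ := by
  have h1 : 𝔼 z, w (φ z) * (b z * c z) = 𝔼 z, b z * 𝔼 y, w (φ z + y) * c (z + σ y) := by
    rw [← Fintype.expect_const (ι := G) (𝔼 z, w (φ z) * (b z * c z))]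
    simp only [mul_expect]
    rw [expect_comm (univ : Finset Z)]
    refine expect_congr rfl fun y _ => ?_
    rw [← expect_shift (fun z => w (φ z) * (b z * c z)) (σ y)]
    refine expect_congr rfl fun z _ => ?_
    rw [map_add, hσ, hi]; ring
  rw [h1]
  refine (RCLike.norm_expect_le (K := ℂ)).trans (expect_le_expect fun z _ => ?_)
  rw [norm_mul]
  exact mul_le_of_le_one_left (norm_nonneg _) (hb z)

/-- Generalised von Neumann inequality. -/
theorem gvn (φ : Z →+ G) : ∀ (t : ℕ) (σ : Fin (t + 1) → G → Z) (_ : ∀ j y, φ (σ j y) = y)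
    (w : G → ℂ) (b : Fin (t + 1) → Z → ℂ) (_ : ∀ j z, ‖b j z‖ ≤ 1)
    (_ : ∀ j z y, b j (z + σ j y) = b j z),
    ‖𝔼 z, w (φ z) * ∏ j, b j z‖ ^ 2 ^ (t + 1) ≤ Mf t w
  | 0, σ, hσ, w, b, hb, hi => by
    have := gvn_step φ (σ 0) (hσ 0) w (b 0) (fun _ => 1) (hb 0) (hi 0)
    simp only [mul_one, expect_shift' w, Fintype.expect_const] at this
    rw [Mf_zero]
    simp only [zero_add, pow_one, Fin.prod_univ_succ, Fin.prod_univ_zero, mul_one]
    gcongr
  | t + 1, σ, hσ, w, b, hb, hi => by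
    have h1 := gvn_step φ (σ 0) (hσ 0) w (b 0) (fun z => ∏ j : Fin (t + 1), b j.succ z) (hb 0) (hi 0)
    set F : Z → G → ℂ := fun z y => w (φ z + y) * ∏ j : Fin (t + 1), b j.succ (z + σ 0 y) with hF
    have h2 : 𝔼 z, ‖𝔼 y, F z y‖ ^ 2 ≤ 𝔼 p : G × G, ‖𝔼 z, F z p.1 * conj (F z p.2)‖ := by
      have h3 : ((𝔼 z, ‖𝔼 y, F z y‖ ^ 2 : ℝ) : ℂ) = 𝔼 p : G × G, 𝔼 z, F z p.1 * conj (F z p.2) := by
        rw [Complex.ofReal_expect, expect_comm]
        refine expect_congr rfl fun z _ => ?_
        rw [expect_prod']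
        simp only [← mul_expect, ← expect_mul, ← conj_expect, Complex.mul_conj']
        simp
      refine le_trans ?_ (RCLike.norm_expect_le (K := ℂ))
      rw [← h3, Complex.norm_real]
      exact le_abs_self _
    have h4 : ∀ p : G × G, ‖𝔼 z, F z p.1 * conj (F z p.2)‖ ^ 2 ^ (t + 1) ≤
        Mf t (Df (p.2 - p.1) w) := fun p => by
      have := gvn φ t (fun j => σ j.succ) (fun j => hσ j.succ)
        (fun x => Df (p.2 - p.1) w (x + p.1))
        (fun j z => b j.succ (z + σ 0 p.1) * conj (b j.succ (z + σ 0 p.2)))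
        (fun j z => by
          rw [norm_mul, Complex.norm_conj]
          exact mul_le_one₀ (hb _ _) (norm_nonneg _) (hb _ _))
        (fun j z y => by rw [add_right_comm z, add_right_comm z _ (σ 0 p.2), hi, hi])
      rw [Mf_shift] at this
      convert this using 4 with z
      simp only [hF, Df, map_mul, map_prod, prod_mul_distrib, add_assoc, add_sub_cancel]
      ring
    calc ‖𝔼 z, w (φ z) * ∏ j, b j z‖ ^ 2 ^ (t + 1 + 1)
        = (‖𝔼 z, w (φ z) * ∏ j, b j z‖ ^ 2) ^ 2 ^ (t + 1) := by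
          rw [← pow_mul, ← pow_succ']
      _ ≤ (𝔼 p : G × G, ‖𝔼 z, F z p.1 * conj (F z p.2)‖) ^ 2 ^ (t + 1) := by
          gcongr
          refine le_trans ?_ ((sq_expect_le _).trans h2)
          simp only [Fin.prod_univ_succ (n := t + 1)]
          gcongr
      _ ≤ 𝔼 p : G × G, Mf t (Df (p.2 - p.1) w) :=
          (pow_expect_le _ (fun _ => norm_nonneg _) _).trans (expect_le_expect fun p _ => h4 p)
      _ = Mf (t + 1) w := by
          rw [expect_prod', Mf_succ]
          simp only [sub_eq_add_neg, expect_shift (fun a => Mf t (Df a w)), Fintype.expect_const]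

theorem expect_surj {φ : Z →+ G} (hφ : Function.Surjective φ) (f : G → ℂ) :
    𝔼 z, f (φ z) = 𝔼 x, f x := by
  choose s hs using hφ
  calc 𝔼 z, f (φ z) = 𝔼 a : G, 𝔼 z, f (φ (z + s a)) := by
        simp only [expect_shift (fun z => f (φ z)), Fintype.expect_const]
    _ = _ := by
        rw [expect_comm]
        simp only [map_add, hs, expect_shift' f, Fintype.expect_const]

end Pool.Agent.MP_3b3b41_nt
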