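import Pool.Agent.MP_3b3b41_nt.Ker

/-! Higher order characters and the algebras they generate. -/

open Finset Filter Topology
open scoped BigOperators ComplexConjugate InnerProductSpace

set_option linter.unusedSectionVars false
set_option linter.unusedSimpArgs false
set_option linter.unusedVariables false

noncomputable section

namespace Pool.Agent.MP_3b3b41_nt

variable {A A' Z : ℕ → Type} [∀ n, AddCommGroup (A n)] [∀ n, Fintype (A n)]
  [∀ n, AddCommGroup (A' n)] [∀ n, Fintype (A' n)] [∀ n, AddCommGroup (Z n)] [∀ n, Fintype (Z n)]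

/-- Shift. -/
def sh (h : ∀ n, A n) : L A →⋆ₐ[ℂ] L A := comap fun n x => x + h n

@[simp] theorem sh_apply (h : ∀ n, A n) (f : L A) (n x) : sh h f n x = f n (x + h n) := rfl

theorem MP_sh (h : ∀ n, A n) : MP (fun n (x : A n) => x + h n) :=
  MP_equiv fun n => Equiv.addRight (h n)

/-- Multiplicative derivative. -/
def dl (h : ∀ n, A n) (f : L A) : L A := f * star (sh h f)

@[simp] theorem dl_apply (h : ∀ n, A n) (f : L A) (n x) :
    dl h f n x = f n x * conj (f n (x + h n)) := rfl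

theorem dl_mul (h : ∀ n, A n) (f g : L A) : dl h (f * g) = dl h f * dl h g := by
  ext; simp; ring

theorem dl_star (h : ∀ n, A n) (f : L A) : dl h (star f) = star (dl h f) := by ext; simp

theorem dl_one (h : ∀ n, A n) : dl h (1 : L A) = 1 := by ext; simp

theorem dl_prod {ι : Type*} (s : Finset ι) (h : ∀ n, A n) (f : ι → L A) :
    dl h (∏ i ∈ s, f i) = ∏ i ∈ s, dl h (f i) := by
  ext; simp [prod_mul_distrib]

theorem dl_comap (ψ : ∀ n, A' n →+ A n) (h : ∀ n, A' n) (f : L A) :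
    dl h (comap (fun n => ψ n) f) = comap (fun n => ψ n) (dl (fun n => ψ n (h n)) f) := by
  ext; simp

theorem unit_map {X Y : ℕ → Type} (φ : L X →⋆ₐ[ℂ] L Y) {f : L X} (hf : f ∈ unitary (L X)) :
    φ f ∈ unitary (L Y) := by
  rw [Unitary.mem_iff_star_mul_self] at hf ⊢
  rw [← map_star, ← map_mul, hf, map_one]

theorem inner_unit {X : ℕ → Type} [∀ n, Fintype (X n)] [∀ n, Nonempty (X n)] {f : L X}
    (hf : f ∈ unitary (L X)) : ⟪f, f⟫_ℂ = 1 := by
  rw [inner_def, Unitary.star_mul_self_of_mem hf, E_one]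

/-- Closed shift invariant algebras. -/
structure SI (B : StarSubalgebra ℂ (L A)) : Prop where
  closed : IsClosed (B : Set (L A))
  shift : ∀ h, ∀ f ∈ B, sh h f ∈ B

theorem SI.dl_mem {B : StarSubalgebra ℂ (L A)} (hB : SI B) (h : ∀ n, A n) {f : L A} (hf : f ∈ B) :
    dl h f ∈ B := mul_mem hf (star_mem (hB.shift h f hf))

/-- The dichotomy: a function with all derivatives in `B` is in `B` or orthogonal to `B`. -/
theorem SI.dich {B : StarSubalgebra ℂ (L A)} (hB : SI B) {u b : L A} (hu : ∀ h, dl h u ∈ B)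
    (hb : b ∈ B) (h0 : ⟪u, b⟫_ℂ ≠ 0) : u ∈ B := by
  refine mem_of_cst hB.closed (tendsto_inner u b) h0 (f := avg
    (comap (fun n (p : P2 A A n) => p.1) u *
      comap (fun n (p : P2 A A n) => p.1 + p.2) (star u * b))) ?_ (avg_mem hB.closed fun h => ?_)
  · refine Eventually.of_forall fun n x => ?_
    simp only [avg_apply, L.mul_apply, comap_apply, L.star_apply, ← mul_expect]
    rw [expect_shift' (fun y => conj (u n y) * b n y)]
  · convert mul_mem (hu h) (hB.shift h b hb) using 1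
    ext; simp [mul_assoc]

variable (A) in
/-- Characters of degree at most `t`. -/
def Gen : ℕ → Set (L A)
  | 0 => {1}
  | t + 1 => {χ | χ ∈ unitary (L A) ∧ ∀ h, dl h χ ∈ csp (Gen t)}

variable (A) in
/-- The algebra of degree `t`. -/
def G (t : ℕ) : StarSubalgebra ℂ (L A) := csp (Gen A t)

theorem Gen_unit : ∀ {t : ℕ} {χ : L A}, χ ∈ Gen A t → χ ∈ unitary (L A)
  | 0, f, h => by rw [show f = 1 from h]; exact one_mem _
  | _ + 1, _, h => h.1

theorem Gen_one : ∀ t : ℕ, (1 : L A) ∈ Gen A t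
  | 0 => rfl
  | _ + 1 => ⟨one_mem _, fun h => by rw [dl_one]; exact one_mem _⟩

theorem Gen_mul : ∀ (t : ℕ), ∀ f ∈ Gen A t, ∀ g ∈ Gen A t, f * g ∈ Gen A t
  | 0, f, hf, g, hg => by rw [show f = 1 from hf, one_mul]; exact hg
  | _ + 1, f, hf, g, hg =>
    ⟨mul_mem hf.1 hg.1, fun h => by rw [dl_mul]; exact mul_mem (hf.2 h) (hg.2 h)⟩

theorem Gen_star : ∀ (t : ℕ), ∀ f ∈ Gen A t, star f ∈ Gen A t
  | 0, f, hf => by rw [show f = 1 from hf, star_one]; rfl
  | _ + 1, f, hf =>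
    ⟨Unitary.star_mem hf.1, fun h => by rw [dl_star]; exact star_mem (hf.2 h)⟩

theorem Gen_pow (t : ℕ) {f : L A} (hf : f ∈ Gen A t) : ∀ m : ℕ, f ^ m ∈ Gen A t
  | 0 => by rw [pow_zero]; exact Gen_one t
  | m + 1 => by rw [pow_succ]; exact Gen_mul t _ (Gen_pow t hf m) _ hf

theorem Gen_sh : ∀ (t : ℕ) (k : ∀ n, A n), ∀ f ∈ Gen A t, sh k f ∈ Gen A t
  | 0, k, f, hf => by rw [show f = 1 from hf, map_one]; rfl
  | t + 1, k, f, hf => ⟨unit_map _ hf.1, fun h => by
      have : dl h (sh k f) = sh k (dl h f) := by ext; simp [add_right_comm]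
      rw [this]
      exact csp_map (csp_closed _) _ (MP_sh k).continuous
        (fun g hg => subset_csp (Gen_sh t k g hg)) (hf.2 h)⟩

theorem G_SI (t : ℕ) : SI (G A t) :=
  ⟨csp_closed _, fun k f hf => csp_map (csp_closed _) _ (MP_sh k).continuous
    (fun g hg => subset_csp (Gen_sh t k g hg)) hf⟩

theorem Gen_succ {t : ℕ} {f : L A} (h1 : f ∈ unitary (L A)) (h2 : f ∈ G A t) :
    f ∈ Gen A (t + 1) := ⟨h1, fun h => (G_SI t).dl_mem h h2⟩

theorem G_mono : Monotone (G A) := monotone_nat_of_le_succ fun t =>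
  csp_le (csp_closed _) fun f hf => subset_csp (Gen_succ (Gen_unit hf) (subset_csp hf))

theorem G_orth {t : ℕ} {w : L A} (h : ∀ f ∈ Gen A t, ⟪w, f⟫_ℂ = 0) {f : L A} (hf : f ∈ G A t) :
    ⟪w, f⟫_ℂ = 0 := csp_orth (Gen_one t) (Gen_mul t) (Gen_star t) h hf

theorem MP_surj {ψ : ∀ n, A' n →+ A n} (hψ : ∀ᶠ n in (U : Filter ℕ), Function.Surjective (ψ n)) :
    MP (fun n => ψ n) := hψ.mono fun n h f => expect_surj h f

theorem Gen_comap {ψ : ∀ n, A' n →+ A n}
    (hψ : ∀ᶠ n in (U : Filter ℕ), Function.Surjective (ψ n)) :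
    ∀ (t : ℕ), ∀ f ∈ Gen A t, comap (fun n => ψ n) f ∈ Gen A' t
  | 0, f, hf => by rw [show f = 1 from hf, map_one]; rfl
  | t + 1, f, hf => ⟨unit_map _ hf.1, fun h => by
      rw [dl_comap]
      exact csp_map (csp_closed _) _ (MP_surj hψ).continuous
        (fun g hg => subset_csp (Gen_comap hψ t g hg)) (hf.2 _)⟩

theorem G_comap {ψ : ∀ n, A' n →+ A n} (hψ : ∀ᶠ n in (U : Filter ℕ), Function.Surjective (ψ n))
    {t : ℕ} {f : L A} (hf : f ∈ G A t) : comap (fun n => ψ n) f ∈ G A' t :=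
  csp_map (csp_closed _) _ (MP_surj hψ).continuous
    (fun g hg => subset_csp (Gen_comap hψ t g hg)) hf

theorem mem_of_const {X : ℕ → Type} [∀ n, Fintype (X n)] [∀ n, Nonempty (X n)]
    {B : StarSubalgebra ℂ (L X)} (hB : IsClosed (B : Set (L X))) {f : L X}
    (h : ∀ n x y, f n x = f n y) : f ∈ B := by
  have h1 : ‖f - E f • (1 : L X)‖ = 0 := null_of_cst (tendsto_E f)
    (Eventually.of_forall fun n x => by simp [h n _ x])
  rw [norm_sub_rev] at h1
  exact mem_of_null hB (B.smul_mem (one_mem _) _) h1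

/-- The Gowers average of order `t + 1` tends to zero. -/
def Nz (t : ℕ) (f : L A) : Prop := Tendsto (fun n => Mf t (f n)) (U : Filter ℕ) (𝓝 0)

/-- Products of functions each invariant in one of the given directions. -/
def Inv {t : ℕ} (σ : Fin t → ∀ n, A n → Z n) (F : L Z) : Prop :=
  ∃ b : Fin t → L Z, (∀ j n z y, b j n (z + σ j n y) = b j n z) ∧ F = ∏ j, b j

theorem Inv.one {t : ℕ} (σ : Fin t → ∀ n, A n → Z n) : Inv σ 1 :=
  ⟨fun _ => 1, fun _ _ _ _ => rfl, by simp⟩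

theorem Inv.mul {t : ℕ} {σ : Fin t → ∀ n, A n → Z n} {F F' : L Z} (h : Inv σ F) (h' : Inv σ F') :
    Inv σ (F * F') := by
  obtain ⟨b, hb, rfl⟩ := h
  obtain ⟨c, hc, rfl⟩ := h'
  exact ⟨fun j => b j * c j, fun j n z y => by simp [hb, hc], by rw [prod_mul_distrib]⟩

theorem Inv.single {t : ℕ} {σ : Fin t → ∀ n, A n → Z n} {F : L Z} (j : Fin t)
    (h : ∀ n z y, F n (z + σ j n y) = F n z) : Inv σ F := by
  refine ⟨Pi.mulSingle j F, fun i n z y => ?_, by simp⟩
  by_cases hi : i = j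
  · subst hi; simpa using h n z y
  · simp [Pi.mulSingle_eq_of_ne hi]

theorem Inv.prod {t : ℕ} {σ : Fin t → ∀ n, A n → Z n} {ι : Type*} {s : Finset ι} {F : ι → L Z}
    (h : ∀ i ∈ s, Inv σ (F i)) : Inv σ (∏ i ∈ s, F i) :=
  prod_induction _ _ (fun _ _ => Inv.mul) (Inv.one σ) h

theorem gvnL {t : ℕ} (φ : ∀ n, Z n →+ A n) {σ : Fin (t + 1) → ∀ n, A n → Z n}
    (hσ : ∀ᶠ n in (U : Filter ℕ), ∀ j y, φ n (σ j n y) = y) {w : L A} (hw : Nz t w) {F : L Z}
    (hF : Inv σ F) : E (comap (fun n => φ n) w * F) = 0 := by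
  obtain ⟨b, hb, rfl⟩ := hF
  choose C hC0 hC using fun j => (b j).bound
  have h1 : ∏ j, b j = (∏ j, (C j : ℂ)) • ∏ j, ((C j : ℂ)⁻¹ • b j) := by
    have : ∏ j, ((C j : ℂ) * (C j : ℂ)⁻¹) = 1 := prod_eq_one fun j _ => mul_inv_cancel₀
      (by exact_mod_cast (hC0 j).ne')
    rw [prod_smul, smul_smul, ← prod_mul_distrib, this, one_smul]
  rw [h1, mul_smul_comm, E_smul]
  refine mul_eq_zero_of_right _ (norm_eq_zero.1 (pow_eq_zero_iff (n := 2 ^ (t + 1)) (by positivity) |>.1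
    (le_antisymm ?_ (by positivity))))
  refine le_of_tendsto_of_tendsto ((tendsto_E _).norm.pow _) hw (hσ.mono fun n hn => ?_)
  have := gvn (φ n) t (fun j => σ j n) hn (w n) (fun j z => (C j : ℂ)⁻¹ * b j n z)
    (fun j z => by
      rw [norm_mul, norm_inv, Complex.norm_real, Real.norm_of_nonneg (hC0 j).le,
        inv_mul_le_iff₀ (hC0 j), mul_one]
      exact hC j n z)
    (fun j z y => by rw [hb])
  simpa using this

/-- Diagonal slices of a kernel. -/
def dsl (h : ∀ n, A n) : L (P2 A A) →⋆ₐ[ℂ] L A := comap fun n x => (x, x + h n)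

@[simp] theorem dsl_apply (h : ∀ n, A n) (K : L (P2 A A)) (n x) :
    dsl h K n x = K n (x, x + h n) := rfl

/-- Kernels all of whose diagonal slices lie in `B`. -/
def K0 (B : StarSubalgebra ℂ (L A)) : StarSubalgebra ℂ (L (P2 A A)) := ⨅ h, B.comap (dsl h)

theorem mem_K0 {B : StarSubalgebra ℂ (L A)} {K : L (P2 A A)} : K ∈ K0 B ↔ ∀ h, dsl h K ∈ B := by
  simp [K0, StarSubalgebra.mem_iInf]

theorem expect_diag {G M : Type*} [AddCommGroup G] [Fintype G] [AddCommMonoid M] [Module ℚ≥0 M]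
    (F : G × G → M) : 𝔼 p, F p = 𝔼 h, 𝔼 x, F (x, x + h) := by
  rw [expect_prod', expect_comm (f := fun h x => F (x, x + h))]
  exact expect_congr rfl fun x _ => (expect_shift' (fun y => F (x, y)) x).symm

theorem orth_K0 {t : ℕ} {B : StarSubalgebra ℂ (L A)}
    (hB : ∀ w, Nz t w → ∀ b ∈ B, ⟪w, b⟫_ℂ = 0) {u : L A} (hu : Nz (t + 1) u) {K : L (P2 A A)}
    (hK : K ∈ K0 B) : ⟪ten u u, K⟫_ℂ = 0 := by
  obtain ⟨C, h0, hC⟩ := (star (ten u u) * K).bound
  have := ae_zero (fun n (h : A n) => ‖𝔼 x, (star (ten u u) * K) n (x, x + h)‖)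
    (fun n h => Mf t (Df h (u n))) C (fun _ _ => norm_nonneg _)
    (fun n h => norm_expect_le_of fun x => hC n _) (fun _ _ => Mf_nonneg _ _)
    (by simpa only [Nz, Mf_succ] using hu) fun h hh => by
      have h1 := (tendsto_inner (dl h u) (dsl h K)).norm
      rw [hB (dl h u) hh _ (mem_K0.1 hK h), norm_zero] at h1
      exact h1
  exact E_eq ((tendsto_expect_zero this).congr fun n => (expect_diag _).symm)

theorem inner_ten {X : ℕ → Type} [∀ n, Fintype (X n)] [∀ n, Nonempty (X n)] (u v u' v' : L X) :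
    ⟪ten u v, ten u' v'⟫_ℂ = ⟪u, u'⟫_ℂ * ⟪v', v⟫_ℂ := by
  refine E_eq (((tendsto_inner u u').mul (tendsto_inner v' v)).congr fun n => ?_)
  rw [expect_mul_expect, expect_prod']
  exact expect_congr rfl fun _ _ => expect_congr rfl fun _ _ => by simp; ring

theorem easy : ∀ (t : ℕ) (w : L A), Nz t w → ∀ b ∈ G A t, ⟪w, b⟫_ℂ = 0
  | 0, w, hw, b, hb => G_orth (fun f hf => by
      rw [show f = 1 from hf, ← inner_conj_symm, ← E_eq_inner, map_eq_zero, ← norm_eq_zero,
        ← pow_eq_zero_iff two_ne_zero]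
      exact tendsto_nhds_unique ((tendsto_E w).norm.pow 2) (by simpa only [Nz, Mf_zero] using hw)) hb
  | t + 1, w, hw, b, hb => G_orth (fun f hf => by
      have := orth_K0 (easy t) hw (K := ten f f) (mem_K0.2 fun h => hf.2 h)
      rw [inner_ten, ← inner_conj_symm f w, Complex.mul_conj, Complex.ofReal_eq_zero] at this
      exact Complex.normSq_eq_zero.1 this) hb

end Pool.Agent.MP_3b3b41_nt
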