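import Mathlib

/-! Minimal projections in an algebra of Hilbert-Schmidt type (after Ambrose). -/

open Filter Topology
open scoped ComplexConjugate InnerProductSpace

set_option linter.unusedSectionVars false
set_option linter.unusedSimpArgs false
set_option linter.unusedVariables false

noncomputable section

namespace Pool.Agent.MP_3b3b41_nt

theorem pos_of_mul_pos_left' {a b : ℝ} (h : 0 < a * b) (ha : 0 ≤ a) : 0 < b := by
  by_contra hb
  nlinarith

variable {H : Type*} [NonUnitalNormedRing H] [InnerProductSpace ℂ H] [IsScalarTower ℂ H H]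
  [SMulCommClass ℂ H H] [StarRing H] [StarModule ℂ H]

/-- `pw S n` is the power of `S` with exponent `n + 1`. -/
def pw (S : H) : ℕ → H
  | 0 => S
  | n + 1 => S * pw S n

theorem pw_add (S : H) (m n : ℕ) : pw S m * pw S n = pw S (m + n + 1) := by
  induction m with
  | zero => simp [pw]
  | succ m ih => rw [pw, mul_assoc, ih, show m + 1 + n + 1 = (m + n + 1) + 1 by ring]; rfl

theorem pw_succ' (S : H) (n : ℕ) : pw S n * S = pw S (n + 1) := pw_add S n 0

theorem star_pw {S : H} (hS : star S = S) (n : ℕ) : star (pw S n) = pw S n := by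
  induction n with
  | zero => exact hS
  | succ n ih => rw [pw, star_mul, ih, hS, pw_succ', pw]

theorem pw_smul (c : ℂ) (S : H) (n : ℕ) : pw (c • S) n = c ^ (n + 1) • pw S n := by
  induction n with
  | zero => simp [pw]
  | succ n ih => rw [pw, ih, smul_mul_smul_comm, pw, ← pow_succ']

/-- The structural hypotheses on the algebra and on the subalgebra `K`. -/
structure HS (K : Submodule ℂ H) : Prop where
  left : ∀ x y z : H, ⟪x * y, z⟫_ℂ = ⟪y, star x * z⟫_ℂ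
  right : ∀ x y z : H, ⟪x * y, z⟫_ℂ = ⟪x, z * star y⟫_ℂ
  norm_star : ∀ x : H, ‖star x‖ = ‖x‖
  mul_mem : ∀ x ∈ K, ∀ y ∈ K, x * y ∈ K
  star_mem : ∀ x ∈ K, star x ∈ K
  compl : ∀ S ∈ K, ∀ T : ℕ → H, (∀ m, T m ∈ K) → (∃ C, ∀ m, ‖T m‖ ≤ C) →
    CauchySeq (fun m => S * T m * S) → ∃ P ∈ K, Tendsto (fun m => S * T m * S) atTop (𝓝 P)

variable {K : Submodule ℂ H}

theorem HS.pw_mem (hK : HS K) {S : H} (hS : S ∈ K) (n : ℕ) : pw S n ∈ K := by
  induction n with
  | zero => exact hS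
  | succ n ih => exact hK.mul_mem _ hS _ ih

theorem HS.inner_pw (hK : HS K) {S : H} (hS : star S = S) (m n : ℕ) :
    ⟪pw S (m + 1), pw S n⟫_ℂ = ⟪pw S m, pw S (n + 1)⟫_ℂ := by
  rw [pw, hK.left, hS, pw]

theorem HS.inner_pw_add (hK : HS K) {S : H} (hS : star S = S) (k m n : ℕ) :
    ⟪pw S (m + k), pw S n⟫_ℂ = ⟪pw S m, pw S (n + k)⟫_ℂ := by
  induction k generalizing n with
  | zero => rfl
  | succ k ih => rw [← add_assoc, hK.inner_pw hS, ih, add_right_comm, add_assoc]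

theorem HS.logconvex (hK : HS K) {S : H} (hS : star S = S) (n : ℕ) :
    ‖pw S (n + 1)‖ ^ 2 ≤ ‖pw S n‖ * ‖pw S (n + 2)‖ := by
  rw [← inner_self_eq_norm_sq (𝕜 := ℂ), hK.inner_pw hS]
  exact (RCLike.re_le_norm _).trans (norm_inner_le_norm _ _)

theorem HS.continuous_star (hK : HS K) : Continuous (star : H → H) :=
  AddMonoidHomClass.continuous_of_bound (starAddEquiv : H ≃+ H) 1 fun x => by
    simp [hK.norm_star]

theorem HS.normalize (hK : HS K) {S : H} (hS : star S = S) (h2 : S * S ≠ 0) :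
    ∃ l : ℝ, 0 < l ∧ (∀ n, ‖pw S (n + 1)‖ ≤ l * ‖pw S n‖) ∧ ∀ n, l ^ (n + 1) ≤ ‖pw S n‖ := by
  have hpos : ∀ n, 0 < ‖pw S n‖ := by
    have : ∀ n, 0 < ‖pw S (n + 1)‖ := fun n => by
      induction n with
      | zero => exact norm_pos_iff.2 h2
      | succ n ih =>
        have := hK.logconvex hS n
        exact pos_of_mul_pos_left' (lt_of_lt_of_le (by positivity) this) (norm_nonneg _)
    intro n
    cases n with
    | zero => exact norm_pos_iff.2 fun h => h2 (by rw [show S = 0 from h, mul_zero])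
    | succ n => exact this n
  set r : ℕ → ℝ := fun n => ‖pw S (n + 1)‖ / ‖pw S n‖ with hr
  have hmono : Monotone r := monotone_nat_of_le_succ fun n => by
    simp only [hr]
    rw [div_le_div_iff₀ (hpos _) (hpos _)]
    nlinarith [hK.logconvex hS n]
  have hbdd : BddAbove (Set.range r) := ⟨‖S‖, by
    rintro _ ⟨n, rfl⟩
    simp only [hr]
    rw [div_le_iff₀ (hpos _)]
    exact norm_mul_le _ _⟩
  have hlim := tendsto_atTop_ciSup hmono hbdd
  set l := ⨆ n, r n with hl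
  have hle : ∀ n, r n ≤ l := le_ciSup hbdd
  have hr0 : ∀ n, 0 < r n := fun n => div_pos (hpos _) (hpos _)
  refine ⟨l, (hr0 0).trans_le (hle 0), fun n => (div_le_iff₀ (hpos _)).1 (hle n), fun n => ?_⟩
  have key : ∀ m k, r m ^ k * ‖pw S m‖ ≤ ‖pw S (m + k)‖ := fun m k => by
    induction k with
    | zero => simp
    | succ k ih =>
      have h1 : r m ≤ r (m + k) := hmono (Nat.le_add_right _ _)
      have h2 : r (m + k) * ‖pw S (m + k)‖ = ‖pw S (m + (k + 1))‖ :=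
        div_mul_cancel₀ _ (hpos _).ne'
      rw [pow_succ', mul_assoc, ← h2]
      exact mul_le_mul h1 ih (by have := hr0 m; have := hpos m; positivity) (hr0 _).le
  refine le_of_tendsto' (hlim.pow (n + 1)) fun m => ?_
  have h1 := key m (n + 1)
  rw [← add_assoc, ← pw_add] at h1
  have h2 := h1.trans (norm_mul_le _ _)
  rw [mul_comm] at h2
  exact le_of_mul_le_mul_left h2 (hpos m)

theorem HS.top (hK : HS K) {S : H} (hSK : S ∈ K) (hS : star S = S)
    (h1 : ∀ n, ‖pw S (n + 1)‖ ≤ ‖pw S n‖) (h2 : ∀ n, 1 ≤ ‖pw S n‖) :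
    ∃ P ∈ K, star P = P ∧ P * P = P ∧ P ≠ 0 ∧ S * P = P * S ∧ S * (S * P) = P := by
  have hanti : Antitone fun n => ‖pw S n‖ := antitone_nat_of_succ_le h1
  set T : ℕ → H := fun m => pw S (2 * m + 3) with hT
  have hT' : (fun m => S * pw S (2 * m + 1) * S) = T := funext fun m => by
    rw [← pw, pw_succ']
  have hin : ∀ m n, ⟪T m, T n⟫_ℂ = ((‖pw S (m + n + 3)‖ ^ 2 : ℝ) : ℂ) := fun m n => by
    have e1 := hK.inner_pw_add hS m (m + 3) (2 * n + 3)
    have e2 := hK.inner_pw_add hS n (m + 3) (m + n + 3)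
    rw [show m + 3 + m = 2 * m + 3 by ring] at e1
    rw [show m + 3 + n = m + n + 3 by ring, show m + n + 3 + n = 2 * n + 3 + m by ring] at e2
    rw [hT, e1, ← e2, inner_self_eq_norm_sq_to_K]
    simp
  obtain ⟨a, ha⟩ : ∃ a, Tendsto (fun n => ‖pw S n‖) atTop (𝓝 a) :=
    ⟨_, tendsto_atTop_ciInf hanti ⟨1, by rintro _ ⟨n, rfl⟩; exact h2 n⟩⟩
  have hale : ∀ n, a ≤ ‖pw S n‖ := fun n => hanti.le_of_tendsto ha n
  have ha0 : 0 ≤ a := ge_of_tendsto' ha fun n => norm_nonneg _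
  have hc : CauchySeq T := by
    refine cauchySeq_of_le_tendsto_0 (fun N => √(2 * (‖pw S N‖ ^ 2 - a ^ 2))) (fun n m N hn hm => ?_) ?_
    · refine Real.le_sqrt_of_sq_le ?_
      rw [dist_eq_norm, norm_sub_sq (𝕜 := ℂ), ← inner_self_eq_norm_sq (𝕜 := ℂ) (T n),
        ← inner_self_eq_norm_sq (𝕜 := ℂ) (T m), hin, hin, hin]
      simp only [RCLike.re_to_complex, Complex.ofReal_re]
      have e1 : ‖pw S (n + n + 3)‖ ^ 2 ≤ ‖pw S N‖ ^ 2 := by gcongr; exact hanti (by omega)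
      have e2 : ‖pw S (m + m + 3)‖ ^ 2 ≤ ‖pw S N‖ ^ 2 := by gcongr; exact hanti (by omega)
      have e3 : a ^ 2 ≤ ‖pw S (n + m + 3)‖ ^ 2 := by gcongr; exact hale _
      linarith
    · have := (((ha.pow 2).sub_const (a ^ 2)).const_mul 2).sqrt
      rwa [sub_self, mul_zero, Real.sqrt_zero] at this
  obtain ⟨P, hPK, hP⟩ := hK.compl S hSK (fun m => pw S (2 * m + 1)) (fun m => hK.pw_mem hSK _)
    ⟨‖pw S 0‖, fun m => hanti (Nat.zero_le _)⟩ (by rwa [hT'])
  rw [hT'] at hP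
  refine ⟨P, hPK, ?_, ?_, ?_, ?_, ?_⟩
  · refine tendsto_nhds_unique ((hK.continuous_star.tendsto P).comp hP) (hP.congr fun m => ?_)
    exact (star_pw hS _).symm
  · refine tendsto_nhds_unique (hP.mul hP)
      ((hP.comp (tendsto_atTop_mono (f := id) (g := fun m => 2 * m + 2)
        (fun m => by simp only [id]; omega) tendsto_id)).congr fun m => ?_)
    simp only [hT, Function.comp_apply, pw_add]
    congr 1; ring
  · intro h0
    have := ge_of_tendsto' hP.norm fun m => h2 _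
    rw [h0, norm_zero] at this
    linarith
  · refine tendsto_nhds_unique (hP.const_mul S) ((hP.mul_const S).congr fun m => ?_)
    simp only [hT]
    rw [pw_succ', pw]
  · refine tendsto_nhds_unique ((hP.const_mul S).const_mul S)
      ((hP.comp (tendsto_add_atTop_nat 1)).congr fun m => ?_)
    simp only [hT, Function.comp_apply]
    rw [← pw, ← pw]
    congr 1

theorem HS.eig (hK : HS K) {S : H} (hSK : S ∈ K) (hS : star S = S) (h2 : S * S ≠ 0) :
    ∃ Q ∈ K, star Q = Q ∧ Q * Q = Q ∧ Q ≠ 0 ∧ ∃ μ : ℂ, μ ≠ 0 ∧ S * Q = μ • Q := by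
  obtain ⟨l, hl, h1, h3⟩ := hK.normalize hS h2
  have hl' : (l : ℂ) ≠ 0 := by exact_mod_cast hl.ne'
  set S' := (l : ℂ)⁻¹ • S with hS'
  have hn : ∀ n, ‖pw S' n‖ = ‖pw S n‖ / l ^ (n + 1) := fun n => by
    rw [hS', pw_smul, norm_smul, norm_pow, norm_inv, Complex.norm_real, Real.norm_of_nonneg hl.le,
      inv_pow, div_eq_inv_mul]
  obtain ⟨P, hPK, hs, hPP, hP0, hc, hSS⟩ := hK.top (S := S') (K.smul_mem _ hSK)
    (by rw [hS', star_smul, hS]; simp)
    (fun n => by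
      rw [hn, hn, div_le_div_iff₀ (by positivity) (by positivity), pow_succ l (n + 1)]
      nlinarith [mul_le_mul_of_nonneg_right (h1 n) (pow_pos hl (n + 1)).le])
    (fun n => by rw [hn, one_le_div (by positivity)]; exact h3 n)
  have hs' : star S' = S' := by rw [hS', star_smul, hS]; simp
  have hSS' : S = (l : ℂ) • S' := by rw [hS', smul_smul, mul_inv_cancel₀ hl', one_smul]
  set a := S' * P with ha
  have haK : a ∈ K := hK.mul_mem _ (K.smul_mem _ hSK) _ hPK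
  have h5 : a * P = a := by rw [ha, mul_assoc, hPP]
  have h6 : P * a = a := by rw [hc, ← mul_assoc, hPP]
  have h7 : a * a = P := by
    calc a * a = S' * (P * a) := by rw [ha, mul_assoc]
      _ = P := by rw [h6, hSS]
  have h8 : star a = a := by rw [ha, star_mul, hs, hs', ← hc]
  have gen : ∀ e : ℂ, e * e = 1 → conj e = e → P + e • a ≠ 0 →
      ∃ Q ∈ K, star Q = Q ∧ Q * Q = Q ∧ Q ≠ 0 ∧ ∃ μ : ℂ, μ ≠ 0 ∧ S * Q = μ • Q := by
    intro e he he' h0
    refine ⟨(2 : ℂ)⁻¹ • (P + e • a), K.smul_mem _ (K.add_mem hPK (K.smul_mem _ haK)), ?_, ?_,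
      smul_ne_zero (by norm_num) h0, l * e, mul_ne_zero hl' (by rintro rfl; simp at he), ?_⟩
    · simp [star_smul, hs, h8, he']
    · simp only [mul_add, add_mul, mul_smul_comm, smul_mul_assoc, hPP, h5, h6, h7, smul_add]
      rw [smul_comm e (2 : ℂ)⁻¹ (e • P), smul_smul e e, he]
      module
    · rw [hSS']
      simp only [smul_mul_assoc, mul_smul_comm, mul_add, ← ha, hSS, smul_add, smul_smul]
      rw [show (l : ℂ) * e * (2⁻¹ * e) = 2⁻¹ * l * (e * e) by ring, he]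
      module
  by_cases h0 : P + (1 : ℂ) • a = 0
  · refine gen (-1) (by simp) (by simp) fun h => hP0 ?_
    have : (2 : ℂ) • P = (P + (1 : ℂ) • a) + (P + (-1 : ℂ) • a) := by module
    rw [h0, h, add_zero] at this
    simpa using this
  · exact gen 1 (by simp) (by simp) h0

theorem one_le_norm_proj {Q : H} (h : Q * Q = Q) (h0 : Q ≠ 0) : 1 ≤ ‖Q‖ := by
  have h1 := norm_mul_le Q Q
  rw [h] at h1
  exact le_of_mul_le_mul_right (by simpa using h1) (norm_pos_iff.2 h0)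

/-- Existence of a minimal projection in an eigenspace. -/
theorem HS.exists_min (hK : HS K) {R : H} (hRK : R ∈ K) (hR : star R = R) (h2 : R * R ≠ 0) :
    ∃ P ∈ K, star P = P ∧ P * P = P ∧ P ≠ 0 ∧ (∃ μ : ℂ, μ ≠ 0 ∧ R * P = μ • P) ∧
      ∀ Z ∈ K, ∃ c : ℂ, P * Z * P = c • P := by
  obtain ⟨Q₀, hQK, hQs, hQQ, hQ0, μ, hμ, hRQ⟩ := hK.eig hRK hR h2
  let PS : Set H := {P | P ∈ K ∧ star P = P ∧ P * P = P ∧ P ≠ 0 ∧ Q₀ * P = P}
  have hne : ((fun P : H => ‖P‖ ^ 2) '' PS).Nonempty := ⟨_, Q₀, ⟨hQK, hQs, hQQ, hQ0, hQQ⟩, rfl⟩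
  have hbd : BddBelow ((fun P : H => ‖P‖ ^ 2) '' PS) :=
    ⟨0, by rintro _ ⟨P, -, rfl⟩; positivity⟩
  obtain ⟨_, ⟨P, ⟨hPK, hPs, hPP, hP0, hQP⟩, rfl⟩, hlt⟩ :=
    exists_lt_of_csInf_lt hne (lt_add_one _)
  have hmin : ∀ Q ∈ K, star Q = Q → Q * Q = Q → Q ≠ 0 → P * Q = Q → Q = P := by
    intro Q h1 h2 h3 h4 h5
    by_contra hne'
    have h6 : Q * P = Q := by rw [← h2, ← hPs, ← star_mul, h5]
    have h7 : (P - Q) * (P - Q) = P - Q := by
      rw [mul_sub, sub_mul, sub_mul, hPP, h5, h6, h3]; abel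
    have h8 := one_le_norm_proj h7 (sub_ne_zero.2 (Ne.symm hne'))
    have h9 : ⟪Q, P - Q⟫_ℂ = 0 := by
      rw [← h3, hK.left, h2, h3, mul_sub, h6, h3, sub_self, inner_zero_right]
    have h10 := norm_add_sq_eq_norm_sq_add_norm_sq_of_inner_eq_zero _ _ h9
    rw [add_sub_cancel] at h10
    have h11 := csInf_le hbd ⟨Q, ⟨h1, h2, h3, h4, by rw [← h5, ← mul_assoc, hQP]⟩, rfl⟩
    simp only at h11 hlt
    nlinarith
  have hsa : ∀ Z ∈ K, star Z = Z → ∃ c : ℂ, P * Z * P = c • P := by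
    intro Z hZ hZs
    set T := P * Z * P with hT
    have hTs : star T = T := by rw [hT, star_mul, star_mul, hPs, hZs, mul_assoc]
    have hPT : P * T = T := by rw [hT, ← mul_assoc, ← mul_assoc, hPP]
    have hTP : T * P = T := by rw [hT, mul_assoc, hPP]
    have hn : ((‖P‖ ^ 2 : ℝ) : ℂ) ≠ 0 := by
      exact_mod_cast pow_ne_zero 2 (norm_ne_zero_iff.2 hP0)
    have hPP' : ⟪P, P⟫_ℂ = ((‖P‖ ^ 2 : ℝ) : ℂ) := by rw [inner_self_eq_norm_sq_to_K]; simp
    set c : ℂ := ⟪P, T⟫_ℂ / ((‖P‖ ^ 2 : ℝ) : ℂ) with hc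
    have hcs : conj c = c := by
      rw [hc, map_div₀, Complex.conj_ofReal, inner_conj_symm]
      congr 1
      rw [← hTP, hK.left, hTs, hTP]
    set T' := T - c • P with hT'
    have h1 : T' ∈ K := K.sub_mem (hK.mul_mem _ (hK.mul_mem _ hPK _ hZ) _ hPK) (K.smul_mem _ hPK)
    have h2 : star T' = T' := by rw [hT', star_sub, hTs, star_smul, hPs]; simp [hcs]
    have h3 : P * T' = T' := by rw [hT', mul_sub, hPT, mul_smul_comm, hPP]
    have h4 : T' * P = T' := by rw [hT', sub_mul, hTP, smul_mul_assoc, hPP]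
    have h5 : ⟪P, T'⟫_ℂ = 0 := by
      rw [hT', inner_sub_right, inner_smul_right, hPP', hc, div_mul_cancel₀ _ hn, sub_self]
    refine ⟨c, sub_eq_zero.1 (by_contra fun h0 : T' ≠ 0 => ?_)⟩
    have h6 : T' * T' ≠ 0 := fun h => h0 (by
      rw [← inner_self_eq_zero (𝕜 := ℂ)]
      nth_rewrite 1 [← h4]
      rw [hK.left, h2, h, inner_zero_right])
    obtain ⟨Q, q1, q2, q3, q4, ν, hν, q5⟩ := hK.eig h1 h2 h6
    have q6 : P * Q = Q := by
      have : ν • (P * Q) = ν • Q := by rw [← mul_smul_comm, ← q5, ← mul_assoc, h3]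
      exact smul_right_injective H hν this
    rw [hmin Q q1 q2 q3 q4 q6, h4] at q5
    rw [q5, inner_smul_right, hPP'] at h5
    exact mul_ne_zero hν hn h5
  refine ⟨P, hPK, hPs, hPP, hP0, ⟨μ, hμ, by rw [← hQP, ← mul_assoc, hRQ, smul_mul_assoc, hQP]⟩,
    fun Z hZ => ?_⟩
  obtain ⟨a, ha⟩ := hsa (Z + star Z) (K.add_mem hZ (hK.star_mem _ hZ)) (by simp [add_comm])
  obtain ⟨b, hb⟩ := hsa (Complex.I • (Z - star Z))
    (K.smul_mem _ (K.sub_mem hZ (hK.star_mem _ hZ))) (by simp [star_smul, smul_sub]; abel)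
  refine ⟨2⁻¹ * (a - Complex.I * b), ?_⟩
  have : Z = (2 : ℂ)⁻¹ • ((Z + star Z) - Complex.I • (Complex.I • (Z - star Z))) := by
    rw [smul_smul, Complex.I_mul_I]; module
  rw [this, mul_smul_comm, smul_mul_assoc, mul_sub, sub_mul, ha, mul_smul_comm, smul_mul_assoc, hb]
  module

end Pool.Agent.MP_3b3b41_nt
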