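import Pool.Agent.MP_3b3b41_nt.Alg
import Pool.Agent.MP_3b3b41_nt.HStar
import Pool.Agent.MP_3b3b41_nt.Cube

/-! The algebra of kernels. -/

open Finset Filter Topology
open scoped BigOperators ComplexConjugate InnerProductSpace

set_option linter.unusedSectionVars false
set_option linter.unusedSimpArgs false
set_option linter.unusedVariables false

noncomputable section

namespace Pool.Agent.MP_3b3b41_nt

variable {X : ℕ → Type} [∀ n, Fintype (X n)] [∀ n, Nonempty (X n)]

/-- Composition of kernels. -/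
def kc (K K' : L (P2 X X)) : L (P2 X X) :=
  avg (comap (fun n (p : P2 (P2 X X) X n) => (p.1.1, p.2)) K *
    comap (fun n (p : P2 (P2 X X) X n) => (p.2, p.1.2)) K')

/-- Adjoint kernel. -/
def ka (K : L (P2 X X)) : L (P2 X X) := star (comap (fun n (p : P2 X X n) => (p.2, p.1)) K)

/-- Rank one kernel. -/
def ten (u v : L X) : L (P2 X X) :=
  comap (fun n (p : P2 X X n) => p.1) u * star (comap (fun n (p : P2 X X n) => p.2) v)

/-- Action of a kernel on a function. -/
def app (K : L (P2 X X)) (f : L X) : L X := avg (K * comap (fun n (p : P2 X X n) => p.2) f)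

@[simp] theorem kc_apply (K K' : L (P2 X X)) (n p) :
    kc K K' n p = 𝔼 y, K n (p.1, y) * K' n (y, p.2) := rfl
@[simp] theorem ka_apply (K : L (P2 X X)) (n p) : ka K n p = conj (K n (p.2, p.1)) := rfl
@[simp] theorem ten_apply (u v : L X) (n p) : ten u v n p = u n p.1 * conj (v n p.2) := rfl
@[simp] theorem app_apply (K : L (P2 X X)) (f : L X) (n x) :
    app K f n x = 𝔼 y, K n (x, y) * f n y := rfl

theorem norm_expect_mul_sq_le {ι : Type*} [Fintype ι] (a b : ι → ℂ) :
    ‖𝔼 i, a i * b i‖ ^ 2 ≤ (𝔼 i, ‖a i‖ ^ 2) * 𝔼 i, ‖b i‖ ^ 2 := by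
  refine le_trans ?_ (expect_mul_sq_le_sq_mul_sq univ (fun i => ‖a i‖) fun i => ‖b i‖)
  gcongr
  simpa using RCLike.norm_expect_le (K := ℂ) (s := univ) (f := fun i => a i * b i)

theorem norm_kc_le (K K' : L (P2 X X)) : ‖kc K K'‖ ≤ ‖K‖ * ‖K'‖ := by
  refine le_of_sq (by positivity) ?_
  rw [mul_pow]
  refine sq_le_of ((tendsto_sq K).mul (tendsto_sq K')) (Eventually.of_forall fun n => ?_)
  rw [expect_prod', expect_prod', expect_prod', expect_comm (f := fun i j => ‖K' n (i, j)‖ ^ 2),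
    expect_mul_expect]
  exact expect_le_expect fun x _ => expect_le_expect fun z _ => norm_expect_mul_sq_le _ _

theorem norm_ka (K : L (P2 X X)) : ‖ka K‖ = ‖K‖ := by
  rw [ka, norm_star']
  exact (MP_equiv fun n => Equiv.prodComm (X n) (X n)).norm K

theorem inner_ka (K K' : L (P2 X X)) : ⟪ka K, ka K'⟫_ℂ = ⟪K', K⟫_ℂ := by
  rw [← (MP_equiv fun n => Equiv.prodComm (X n) (X n)).inner K' K, inner_def, inner_def, ka, ka,
    star_star, mul_comm]
  rfl

theorem ka_ka (K : L (P2 X X)) : ka (ka K) = K := by ext; simp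

theorem kc_add (a b c : L (P2 X X)) : kc a (b + c) = kc a b + kc a c := by
  ext; simp [mul_add, expect_add_distrib]

theorem add_kc (a b c : L (P2 X X)) : kc (a + b) c = kc a c + kc b c := by
  ext; simp [add_mul, expect_add_distrib]

theorem zero_kc (a : L (P2 X X)) : kc 0 a = 0 := by ext; simp

theorem kc_zero (a : L (P2 X X)) : kc a 0 = 0 := by ext; simp

theorem kc_assoc (a b c : L (P2 X X)) : kc (kc a b) c = kc a (kc b c) := by
  ext
  simp only [kc_apply, expect_mul, mul_expect, mul_assoc]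
  exact expect_comm _ _ _

/-- Kernels with composition as product. -/
def Ker (X : ℕ → Type) : Type := L (P2 X X)

instance kerGroup : SeminormedAddCommGroup (Ker X) :=
  inferInstanceAs (SeminormedAddCommGroup (L (P2 X X)))

instance : NonUnitalSeminormedRing (Ker X) where
  __ := kerGroup (X := X)
  mul := kc (X := X)
  left_distrib := kc_add
  right_distrib := add_kc
  zero_mul := zero_kc
  mul_zero := kc_zero
  mul_assoc := kc_assoc
  norm_mul_le := norm_kc_le

instance : InnerProductSpace ℂ (Ker X) := inferInstanceAs (InnerProductSpace ℂ (L (P2 X X)))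

/-- Kernels modulo null kernels. -/
abbrev HQ (X : ℕ → Type) [∀ n, Fintype (X n)] [∀ n, Nonempty (X n)] : Type :=
  SeparationQuotient (Ker X)

/-- The class of a kernel. -/
def q : L (P2 X X) →ₗ[ℂ] HQ X where
  toFun a := SeparationQuotient.mk (X := Ker X) a
  map_add' _ _ := rfl
  map_smul' _ _ := rfl

theorem q_surj (a : HQ X) : ∃ b, q b = a := SeparationQuotient.surjective_mk (X := Ker X) a

theorem q_kc (a b : L (P2 X X)) : q (kc a b) = q a * q b := rfl

theorem inner_q (a b : L (P2 X X)) : ⟪q a, q b⟫_ℂ = ⟪a, b⟫_ℂ := rfl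

theorem norm_q (a : L (P2 X X)) : ‖q a‖ = ‖a‖ := rfl

theorem q_eq {a b : L (P2 X X)} : q a = q b ↔ ‖a - b‖ = 0 := by
  rw [← norm_q, map_sub, norm_eq_zero, sub_eq_zero]

theorem ka_sub (a b : L (P2 X X)) : ka (a - b) = ka a - ka b := by ext; simp

theorem q_ka_eq {a b : L (P2 X X)} (h : q a = q b) : q (ka a) = q (ka b) := by
  rw [q_eq] at h ⊢
  rw [← ka_sub, norm_ka, h]

instance : Star (HQ X) where
  star := SeparationQuotient.lift (X := Ker X) (fun a => q (ka a)) fun a b h =>
    q_ka_eq (SeparationQuotient.mk_eq_mk.2 h)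

theorem q_ka (a : L (P2 X X)) : q (ka a) = star (q a) := rfl

instance : StarRing (HQ X) where
  star_involutive a := by
    obtain ⟨a, rfl⟩ := q_surj a
    rw [← q_ka, ← q_ka, ka_ka]
  star_mul a b := by
    obtain ⟨a, rfl⟩ := q_surj a
    obtain ⟨b, rfl⟩ := q_surj b
    rw [← q_kc, ← q_ka, ← q_ka, ← q_ka, ← q_kc]
    congr 1; ext; simp [conj_expect, mul_comm]
  star_add a b := by
    obtain ⟨a, rfl⟩ := q_surj a
    obtain ⟨b, rfl⟩ := q_surj b
    rw [← map_add, ← q_ka, ← q_ka, ← q_ka, ← map_add]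
    congr 1; ext; simp

instance : StarModule ℂ (HQ X) where
  star_smul c a := by
    obtain ⟨a, rfl⟩ := q_surj a
    rw [← map_smul, ← q_ka, ← q_ka, ← map_smul]
    congr 1; ext; simp

instance : IsScalarTower ℂ (HQ X) (HQ X) where
  smul_assoc c a b := by
    obtain ⟨a, rfl⟩ := q_surj a
    obtain ⟨b, rfl⟩ := q_surj b
    rw [smul_eq_mul, smul_eq_mul, ← map_smul, ← q_kc, ← q_kc, ← map_smul]
    congr 1; ext; simp [mul_expect, mul_assoc]

instance : SMulCommClass ℂ (HQ X) (HQ X) where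
  smul_comm c a b := by
    obtain ⟨a, rfl⟩ := q_surj a
    obtain ⟨b, rfl⟩ := q_surj b
    rw [smul_eq_mul, smul_eq_mul, ← map_smul, ← q_kc, ← q_kc, ← map_smul]
    congr 1; ext; simp [mul_expect, mul_left_comm]

theorem hq_left (x y z : HQ X) : ⟪x * y, z⟫_ℂ = ⟪y, star x * z⟫_ℂ := by
  obtain ⟨x, rfl⟩ := q_surj x
  obtain ⟨y, rfl⟩ := q_surj y
  obtain ⟨z, rfl⟩ := q_surj z
  rw [← q_kc, ← q_ka, ← q_kc, inner_q, inner_q, inner_def, inner_def]
  refine E_congr (Eventually.of_forall fun n => ?_)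
  simp only [expect_prod', L.mul_apply, L.star_apply, kc_apply, ka_apply, conj_expect, map_mul,
    expect_mul, mul_expect]
  rw [expect_comm, expect_comm (f := fun i j => 𝔼 k, conj (y n (i, j)) * (conj (x n (k, i)) * z n (k, j)))]
  refine expect_congr rfl fun j _ => ?_
  rw [expect_comm]
  exact expect_congr rfl fun _ _ => expect_congr rfl fun _ _ => by ring

theorem hq_inner_star (x y : HQ X) : ⟪star x, star y⟫_ℂ = ⟪y, x⟫_ℂ := by
  obtain ⟨x, rfl⟩ := q_surj x
  obtain ⟨y, rfl⟩ := q_surj y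
  rw [← q_ka, ← q_ka, inner_q, inner_q, inner_ka]

theorem hq_right (x y z : HQ X) : ⟪x * y, z⟫_ℂ = ⟪x, z * star y⟫_ℂ := by
  rw [← hq_inner_star, star_mul, ← inner_conj_symm, hq_left, star_star, inner_conj_symm,
    ← hq_inner_star, star_star, star_mul, star_star]

theorem hs_of {K : StarSubalgebra ℂ (L (P2 X X))} (hK : IsClosed (K : Set (L (P2 X X))))
    (hc : ∀ a ∈ K, ∀ b ∈ K, kc a b ∈ K) (ha : ∀ a ∈ K, ka a ∈ K) :
    HS ((Subalgebra.toSubmodule K.toSubalgebra).map q) where
  left := hq_left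
  right := hq_right
  norm_star x := by
    obtain ⟨x, rfl⟩ := q_surj x
    rw [← q_ka, norm_q, norm_q, norm_ka]
  mul_mem := by
    rintro _ ⟨a, h1, rfl⟩ _ ⟨b, h2, rfl⟩
    exact ⟨_, hc a h1 b h2, q_kc a b⟩
  star_mem := by
    rintro _ ⟨a, h1, rfl⟩
    exact ⟨_, ha a h1, q_ka a⟩
  compl := by
    rintro _ ⟨S, hS, rfl⟩ T hT ⟨C, hC⟩ hcau
    choose T₀ hT₀ hTq using hT
    obtain ⟨B, hB0, hB⟩ := S.bound
    have hC0 : 0 ≤ C := (norm_nonneg _).trans (hC 0)
    have hiso : Isometry (q (X := X)) := AddMonoidHomClass.isometry_of_norm _ norm_q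
    have heq : (fun m => q S * T m * q S) = fun m => q (kc (kc S (T₀ m)) S) :=
      funext fun m => by rw [q_kc, q_kc, hTq]
    rw [heq] at hcau ⊢
    have htc : CauchySeq fun m => kc (kc S (T₀ m)) S := (hiso.isUniformInducing.cauchy_map_iff).1
      (by simpa [CauchySeq, Filter.map_map, Function.comp_def] using hcau)
    obtain ⟨P, -, hP⟩ := complete _ htc (C := B * (C + 1) * B) (by positivity) fun m => by
      have h1 : ‖T₀ m‖ ^ 2 < (C + 1) ^ 2 := by
        have := hC m
        rw [← hTq, norm_q] at this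
        gcongr
        linarith
      filter_upwards [(tendsto_sq (T₀ m)).eventually_le_const h1] with n hn p
      have h2 : 𝔼 z, ‖T₀ m n z‖ ≤ C + 1 := le_of_sq (by positivity) ((sq_expect_le _).trans hn)
      simp only [kc_apply, expect_mul]
      rw [expect_comm, ← expect_prod' (fun z : X n × X n =>
        S n (p.1, z.1) * T₀ m n (z.1, z.2) * S n (z.2, p.2))]
      refine (RCLike.norm_expect_le (K := ℂ)).trans ?_
      refine (expect_le_expect (g := fun z => B * ‖T₀ m n z‖ * B) fun z _ => ?_).trans ?_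
      · rw [norm_mul, norm_mul]
        gcongr <;> apply hB
      · rw [← expect_mul, ← mul_expect]
        gcongr
    exact ⟨q P, ⟨P, hK.mem_of_tendsto hP (Eventually.of_forall fun m =>
      hc _ (hc _ hS _ (hT₀ m)) _ hS), rfl⟩, (hiso.continuous.tendsto P).comp hP⟩

/-- A function as a kernel. -/
def vec (u : L X) : HQ X := q (ten u 1)

theorem q_ten (u v : L X) : q (ten u v) = vec u * star (vec v) := by
  rw [vec, vec, ← q_ka, ← q_kc]
  congr 1; ext; simp

theorem vec_app (K : L (P2 X X)) (f : L X) : vec (app K f) = q K * vec f := by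
  rw [vec, vec, ← q_kc]
  congr 1; ext; simp

theorem inner_vec (u v : L X) : ⟪vec u, vec v⟫_ℂ = ⟪u, v⟫_ℂ := by
  rw [vec, vec, inner_q, ← (MP_fst (X := X) (Y := X)).inner]
  congr 1 <;> ext <;> simp

theorem norm_vec (u : L X) : ‖vec u‖ = ‖u‖ := by
  rw [norm_eq_sqrt_re_inner (𝕜 := ℂ), norm_eq_sqrt_re_inner (𝕜 := ℂ), inner_vec]

theorem vec_sub (u v : L X) : vec (u - v) = vec u - vec v := by
  rw [vec, vec, vec, ← map_sub]; congr 1; ext; simp

theorem vec_smul (c : ℂ) (u : L X) : vec (c • u) = c • vec u := by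
  rw [vec, vec, ← map_smul]; congr 1; ext; simp

theorem star_vec_mul (u v w : L X) : star (vec u) * vec v * star (vec w) =
    ⟪u, v⟫_ℂ • (star (vec 1) * vec 1 * star (vec w)) := by
  simp only [vec, ← q_ka, ← q_kc, ← map_smul, q_eq]
  exact null_of_cst (tendsto_inner u v) (Eventually.of_forall fun n p => by simp [mul_comm])

theorem mul_eq_zero_of_vec {D : HQ X} (h : ∀ f, D * vec f = 0) (Z : HQ X) : D * Z = 0 := by
  obtain ⟨D, rfl⟩ := q_surj D
  obtain ⟨Z, rfl⟩ := q_surj Z
  rw [← q_kc, ← norm_eq_zero, norm_q]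
  obtain ⟨C, h0, hC⟩ := (kc D Z).bound
  have := all_zero (fun n (y : X n) => 𝔼 x, ‖kc D Z n (x, y)‖ ^ 2) (C ^ 2)
    (fun n y => expect_nonneg fun _ _ => by positivity)
    (fun n y => expect_le univ_nonempty fun x _ => by gcongr; exact hC n _) fun y => by
      have h1 := tendsto_sq (app D (sl y Z))
      rw [← norm_vec, vec_app, h, norm_zero] at h1
      simpa using h1
  refine norm_eq_zero_of this (Eventually.of_forall fun n => ?_)
  rw [expect_prod', expect_comm]

end Pool.Agent.MP_3b3b41_nt
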